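import Pool.Agent.J6H88.JO.Jen
import Pool.Agent.W721.RO.WRD
import Pool.Agent.W540.RO.N2
import Pool.Agent.W545.RO.Erg
import Pool.Agent.W338.RO.Abs
import Pool.Agent.W611.RO.MainC

/-!
# Covariant fields with a leading coefficient
-/

set_option autoImplicit false
open scoped ComplexConjugate InnerProductSpace Topology BoundedContinuousFunction
open Filter MeasureTheory

namespace Pool.Agent.J6H88.JO
open Pool.Agent.H712R5.BO Pool.Agent.W611.RO

section
variable {G Ω H : Type} [Group G] [Countable G] [MeasurableSpace Ω] [MulAction G Ω]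
  [NormedAddCommGroup H] [InnerProductSpace ℂ H] [CompleteSpace H]

/-- the translations on the right -/
theorem exists_U (b : HilbertBasis G ℂ H) (L : G → unitary (H →L[ℂ] H)) (hL : Reg b L)
    (hmeas : ∀ h : G, Measurable (fun ω : Ω => h • ω)) (g : G) :
    ∃ U U' : CF (Ω := Ω) b L, U * U' = 1 ∧ U' * U = 1 ∧ star U = U' ∧
      ∀ ω k, ev b L ω U' (b k) = b (k * g) := by
  classical
  obtain ⟨U, hU⟩ := Pool.Agent.W721.RO.t_WRD Pool.Agent.W515.RO.t_UNI G Ω H b L hL hmeas g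
    (fun _ => 1) 1 measurable_const (fun _ => by simp)
  obtain ⟨U', hU'⟩ := Pool.Agent.W721.RO.t_WRD Pool.Agent.W515.RO.t_UNI G Ω H b L hL hmeas g⁻¹
    (fun _ => 1) 1 measurable_const (fun _ => by simp)
  have h1 : ∀ ω k, ev b L ω U (b k) = b (k * g⁻¹) := fun ω k => by
    have := hU ω k
    simpa using this
  have h2 : ∀ ω k, ev b L ω U' (b k) = b (k * g) := fun ω k => by
    have := hU' ω k
    simpa using this
  refine ⟨U, U', ?_, ?_, ?_, h2⟩
  · refine cf_ext b L _ _ fun ω => Pool.Agent.W253.RO.clm_ext b _ _ fun k => ?_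
    rw [map_mul, map_one]
    show ev b L ω U (ev b L ω U' (b k)) = b k
    rw [h2, h1, mul_inv_cancel_right]
  · refine cf_ext b L _ _ fun ω => Pool.Agent.W253.RO.clm_ext b _ _ fun k => ?_
    rw [map_mul, map_one]
    show ev b L ω U' (ev b L ω U (b k)) = b k
    rw [h1, h2, inv_mul_cancel_right]
  · refine cf_ext b L _ _ fun ω => Pool.Agent.W253.RO.clm_ext b _ _ fun k => ?_
    rw [map_star, h2, ← sub_eq_zero]
    refine Pool.Agent.W253.RO.total b _ fun m => ?_
    rw [← inner_conj_symm, inner_sub_right, ContinuousLinearMap.star_eq_adjoint,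
      ContinuousLinearMap.adjoint_inner_right, h1, basis_inner, basis_inner]
    by_cases h : m * g⁻¹ = k
    · have h' : m = k * g := by rw [← h, inv_mul_cancel_right]
      rw [if_pos h, if_pos h', sub_self, map_zero]
    · have h' : m ≠ k * g := by
        rintro rfl
        exact h (mul_inv_cancel_right _ _)
      rw [if_neg h, if_neg h', sub_self, map_zero]

/-- the abstract criterion -/
theorem core (P : Measure Ω) [IsProbabilityMeasure P] (b : HilbertBasis G ℂ H)
    (L : G → unitary (H →L[ℂ] H)) (hL : Reg b L) (herg : Erg G P)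
    {lt : G → G → Prop} (hl : LOrd lt) (T S S0 U : CF (Ω := Ω) b L)
    (hU : U ∈ unitary (CF (Ω := Ω) b L)) (hT : T - tau P b L T • (1 : CF (Ω := Ω) b L) = S * U)
    (hS : ∀ ω k m, ¬ lt k m → ⟪b m, (ev b L ω S - ev b L ω S0) (b k)⟫_ℂ = 0)
    (hS0 : ∀ ω k m, lt k m ∨ lt m k → ⟪b m, ev b L ω S0 (b k)⟫_ℂ = 0)
    (hlow : ∀ δ : ℝ, 0 < δ →
      0 ≤ ld (tau P b L) (algebraMap ℝ (CF (Ω := Ω) b L) δ + star S0 * S0)) :
    ∀ᵐ ω ∂P, HasHyp (ev b L ω T) := by
  let := CStarAlgebra.spectralOrder (CF (Ω := Ω) b L)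
  have := CStarAlgebra.spectralOrderedRing (CF (Ω := Ω) b L)
  have hτ : TrSt (tau P b L) := t_TR G Ω H P b L hL herg.mp
  refine Pool.Agent.W338.RO.t_ABS Ω P G H (CF (Ω := Ω) b L) (tau P b L) (fun ω => ev b L ω)
    (fun k => b k) (b 1) hτ (b.orthonormal.1 1) (Pool.Agent.W253.RO.total b)
    (fun A => (Pool.Agent.W540.RO.t_N2 G Ω H P b L hL herg.mp A).1)
    (fun A => ⟨ev_int P b L A _ _, tau_apply P b L A⟩)
    (fun A k => ⟨((Pool.Agent.W540.RO.t_N2 G Ω H P b L hL herg.mp A).2 k).1,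
      ((Pool.Agent.W540.RO.t_N2 G Ω H P b L hL herg.mp A).2 k).2.le⟩)
    (fun B R hB => Pool.Agent.W545.RO.t_ERG G Ω H P b L hL herg B R hB) T ?_
  intro k δ _ hδ
  have h1 : ∀ δ : ℝ, 0 < δ → (0:ℝ) ≤ ld (tau P b L) (algebraMap ℝ (CF (Ω := Ω) b L) δ
      + star (T - tau P b L T • (1 : CF (Ω := Ω) b L)) * (T - tau P b L T • 1)) := by
    intro δ hδ
    have h2 := (hlow δ hδ).trans (jensen P b L hL herg.mp hl S S0 hS hS0 δ hδ)
    have e1 : algebraMap ℝ (CF (Ω := Ω) b L) δ + star (S * U) * (S * U)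
        = star U * (algebraMap ℝ (CF (Ω := Ω) b L) δ + star S * S) * U := by
      have hUU : star U * U = 1 := (Unitary.mem_iff.mp hU).1
      have e2 : star U * algebraMap ℝ (CF (Ω := Ω) b L) δ * U = algebraMap ℝ (CF (Ω := Ω) b L) δ := by
        rw [Algebra.algebraMap_eq_smul_one, mul_smul_comm, mul_one, smul_mul_assoc, hUU]
      rw [mul_add, add_mul, e2, star_mul]
      simp only [mul_assoc]
    have hsa : IsSelfAdjoint (algebraMap ℝ (CF (Ω := Ω) b L) δ + star S * S) :=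
      (sp_add hδ S).nonneg.isSelfAdjoint
    rw [hT, e1]
    unfold ld
    rw [B4v_log_conj U hU _ hsa, hτ.tr, ← mul_assoc, (Unitary.mem_iff.mp hU).2, one_mul]
    exact h2
  have h3 := ld_pow (tau P b L) hτ _ 0 h1 k δ hδ
  rw [mul_zero] at h3
  exact h3

/-- the matrix entries of a covariant field -/
theorem entry (b : HilbertBasis G ℂ H) (L : G → unitary (H →L[ℂ] H)) (hL : Reg b L)
    (A : CF (Ω := Ω) b L) (ω : Ω) (m k : G) :
    ⟪b m, ev b L ω A (b k)⟫_ℂ = ⟪b 1, ev b L (m⁻¹ • ω) A (b (m⁻¹ * k))⟫_ℂ := by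
  have h1 : b k = (L m : H →L[ℂ] H) (b (m⁻¹ * k)) := by rw [hL m, mul_inv_cancel_left]
  have hcov := ev_cov b L A m (m⁻¹ • ω)
  rw [smul_inv_smul] at hcov
  have h2 : ev b L ω A ((L m : H →L[ℂ] H) (b (m⁻¹ * k)))
      = (L m : H →L[ℂ] H) (ev b L (m⁻¹ • ω) A (b (m⁻¹ * k))) :=
    congrArg (fun T : H →L[ℂ] H => T (b (m⁻¹ * k))) hcov
  rw [h1, h2, L_inner b hL, inv_mul_cancel]

/-- right invariant strict weak orders -/
structure ROrd {G : Type} [Group G] (r : G → G → Prop) : Prop where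
  irrefl : ∀ a, ¬ r a a
  trans : ∀ a b c, r a b → r b c → r a c
  weak : ∀ a b c, r a c → r a b ∨ r b c
  right : ∀ a b g, r a b → r (a * g) (b * g)

omit [Countable G] in
theorem ROrd.lord {r : G → G → Prop} (hr : ROrd r) : LOrd fun k m : G => r m⁻¹ k⁻¹ where
  irrefl := fun a => hr.irrefl _
  trans := fun _ _ _ h1 h2 => hr.trans _ _ _ h2 h1
  neg := fun _ b _ h => (hr.weak _ b⁻¹ _ h).symm
  left := fun g a b h => by
    rw [mul_inv_rev, mul_inv_rev]
    exact hr.right _ _ _ h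

/-- covariant fields with a leading coefficient -/
theorem lead (P : Measure Ω) [IsProbabilityMeasure P] (b : HilbertBasis G ℂ H) (herg : Erg G P)
    (L : G → unitary (H →L[ℂ] H)) (hL : Reg b L) {r : G → G → Prop} (hr : ROrd r)
    (A : CF (Ω := Ω) b L) (g₀ : G) (hpos : r 1 g₀)
    (hz : ∀ g ω, g ≠ g₀ → ¬ r g g₀ → ⟪b 1, ev b L ω A (b g)⟫_ℂ = 0)
    (hne : ∀ᵐ ω ∂P, ⟪b 1, ev b L ω A (b g₀)⟫_ℂ ≠ 0)
    (hint : Integrable (fun ω => Real.log ‖⟪b 1, ev b L ω A (b g₀)⟫_ℂ‖) P) :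
    ∀ᵐ ω ∂P, HasHyp (ev b L ω A) := by
  classical
  set κ : ℝ := ∫ ω, Real.log ‖⟪b 1, ev b L ω A (b g₀)⟫_ℂ‖ ∂P with hκ
  set e : ℂ := ((Real.exp (-κ) : ℝ) : ℂ) with he
  have he0 : e ≠ 0 := by
    rw [he]
    exact_mod_cast (Real.exp_pos _).ne'
  have hen : ‖e‖ = Real.exp (-κ) := by
    rw [he, Complex.norm_real, Real.norm_eq_abs, Real.abs_exp]
  set T : CF (Ω := Ω) b L := e • A with hT
  have hTev : ∀ ω, ev b L ω T = e • ev b L ω A := fun ω => rfl
  have hmeas : ∀ h : G, Measurable (fun ω : Ω => h • ω) := fun h => (herg.mp h).measurable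
  obtain ⟨U, U', hUU', hU'U, hstar, hU'b⟩ := exists_U b L hL hmeas g₀
  have hUn : U ∈ unitary (CF (Ω := Ω) b L) := by
    rw [Unitary.mem_iff, hstar]
    exact ⟨hU'U, hUU'⟩
  set c : ℂ := tau P b L T with hc
  set a : Ω → ℂ := fun ω => ⟪b 1, ev b L ω T (b g₀)⟫_ℂ with ha
  have ham : Measurable a := ev_meas b L T _ _
  have han : ∀ ω, ‖a ω‖ ≤ ‖T‖ := by
    intro ω
    have h1 := ev_inner_le b L T (b 1) (b g₀) ω
    rwa [b.orthonormal.1, b.orthonormal.1, one_mul, one_mul] at h1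
  obtain ⟨S0, hS0⟩ := Pool.Agent.W721.RO.t_WRD Pool.Agent.W515.RO.t_UNI G Ω H b L hL hmeas 1 a
    ‖T‖ ham han
  have hS0b : ∀ ω k, ev b L ω S0 (b k) = a (k⁻¹ • ω) • b k := by
    intro ω k
    have h1 := hS0 ω k
    simpa using h1
  set S : CF (Ω := Ω) b L := (T - c • 1) * U' with hS
  have hSb : ∀ ω k, ev b L ω S (b k) = ev b L ω T (b (k * g₀)) - c • b (k * g₀) := by
    intro ω k
    rw [hS, map_mul]
    show ev b L ω (T - c • 1) (ev b L ω U' (b k)) = _
    rw [hU'b, map_sub]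
    rfl
  have hg1 : (1 : G) ≠ g₀ := by
    rintro h
    rw [← h] at hpos
    exact hr.irrefl _ hpos
  have hzT : ∀ g ω, g ≠ g₀ → ¬ r g g₀ → ⟪b 1, ev b L ω T (b g)⟫_ℂ = 0 := by
    intro g ω h1 h2
    rw [hTev, _root_.smul_apply, inner_smul_right, hz g ω h1 h2, mul_zero]
  have hmain := core P b L hL herg hr.lord T S S0 U hUn (by
    rw [hS, mul_assoc, hU'U, mul_one]) (by
    intro ω k m hkm
    have hrel : r (m⁻¹ * (k * g₀)) g₀ → r m⁻¹ k⁻¹ := by
      intro h
      have h3 := hr.right _ _ (k * g₀)⁻¹ h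
      rw [mul_assoc, mul_inv_cancel, mul_one, mul_inv_rev, mul_inv_cancel_left] at h3
      exact h3
    rw [_root_.sub_apply, hSb, hS0b, inner_sub_right, inner_sub_right, inner_smul_right,
      inner_smul_right, basis_inner, basis_inner, entry b L hL]
    by_cases hg : m⁻¹ * (k * g₀) = g₀
    · have hmk : m = k := by
        have h4 : m⁻¹ * k = 1 := by
          have : m⁻¹ * k * g₀ = 1 * g₀ := by rw [mul_assoc, hg, one_mul]
          exact mul_right_cancel this
        exact (inv_mul_eq_one.1 h4)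
      have hmk2 : m ≠ k * g₀ := by
        intro h
        rw [← h, inv_mul_cancel] at hg
        exact hg1 hg
      rw [if_neg hmk2, if_pos hmk, hg, hmk, mul_zero, mul_one, sub_zero]
      exact sub_self _
    · have hnr : ¬ r (m⁻¹ * (k * g₀)) g₀ := fun h => hkm (hrel h)
      have hmk2 : m ≠ k * g₀ := by
        intro h
        rw [← h, inv_mul_cancel] at hnr
        exact hnr hpos
      have hmk : m ≠ k := by
        rintro rfl
        rw [inv_mul_cancel_left] at hg
        exact hg rfl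
      rw [hzT _ _ hg hnr, if_neg hmk2, if_neg hmk]
      simp) (by
    intro ω k m hkm
    have hmk : m ≠ k := by
      rintro rfl
      rcases hkm with h | h <;> exact hr.irrefl _ h
    rw [hS0b, inner_smul_right, basis_inner, if_neg hmk, mul_zero]) (by
    intro δ hδ
    have hlog : ∀ᵐ ω ∂P, Real.log ‖a ω‖ = -κ + Real.log ‖⟪b 1, ev b L ω A (b g₀)⟫_ℂ‖ := by
      filter_upwards [hne] with ω hω
      have : a ω = e * ⟪b 1, ev b L ω A (b g₀)⟫_ℂ := by
        rw [ha]
        simp only [hTev]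
        rw [_root_.smul_apply, inner_smul_right]
      rw [this, norm_mul, hen, Real.log_mul (Real.exp_pos _).ne' (norm_ne_zero_iff.2 hω),
        Real.log_exp]
    have h2 : ∫ ω, Real.log ‖a ω‖ ∂P = 0 := by
      rw [integral_congr_ae hlog, integral_add (integrable_const _) hint, integral_const]
      simp [hκ]
    have h3 := Pool.Agent.W493.RO.Lead.t_LEAD G Ω H P b L hL herg.mp 1 a S0 hS0 ham (by
      filter_upwards [hne] with ω hω
      have : a ω = e * ⟪b 1, ev b L ω A (b g₀)⟫_ℂ := by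
        rw [ha]
        simp only [hTev]
        rw [_root_.smul_apply, inner_smul_right]
      rw [this]
      exact mul_ne_zero he0 hω) (by
      refine Integrable.congr ((integrable_const (-κ)).add hint) ?_
      filter_upwards [hlog] with ω hω
      simp only [Pi.add_apply]
      rw [hω]) 1 δ hδ
    rw [h2, mul_zero, pow_one] at h3
    exact h3)
  filter_upwards [hmain] with ω hω
  rw [hTev] at hω
  exact Pool.Agent.W253.RO.hasHyp_of_smul _ _ hω

end

end Pool.Agent.J6H88.JO
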