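import Pool.Agent.J6H88.JO.Alg

/-!
# The variation of the determinant of the diagonal part, abstract form
-/

set_option autoImplicit false
open scoped ComplexConjugate InnerProductSpace Topology
open Filter MeasureTheory

namespace Pool.Agent.J6H88.JO
open Pool.Agent.H712R5.BO

section
variable {A : Type} [CStarAlgebra A]

theorem tr_isom (τ : A →L[ℂ] ℂ) (hτ : TrSt τ) (u x : A) (hu : star u * u = 1) :
    τ (u * star u * x) = τ x := by
  obtain ⟨-, -, -, -, -, -, hCS, -, hnn, -, hsq⟩ := t_B1 A τ hτ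
  set p : A := 1 - u * star u with hp
  have hpp : star p * p = p := by
    have h1 : u * star u * (u * star u) = u * star u := by
      calc u * star u * (u * star u) = u * (star u * u) * star u := by simp only [mul_assoc]
        _ = _ := by rw [hu, mul_one]
    rw [hp, star_sub, star_one, star_mul, star_star, mul_sub, mul_one, sub_mul, one_mul, h1]
    abel
  have hn : n2 τ p = 0 := by
    have h2 := hsq p
    rw [hpp, hp, map_sub, hτ.one, hτ.tr u (star u), hu, hτ.one, sub_self, Complex.zero_re] at h2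
    exact pow_eq_zero_iff (two_ne_zero) |>.1 h2
  have h3 := hCS p x
  rw [hn, zero_mul] at h3
  have h4 : τ (p * x) = 0 := norm_le_zero_iff.1 h3
  rw [hp, sub_mul, one_mul, map_sub, sub_eq_zero] at h4
  exact h4.symm

theorem inv_sa (t : Aˣ) (ht : IsSelfAdjoint (t : A)) : star ((t⁻¹ : Aˣ) : A) = ((t⁻¹ : Aˣ) : A) := by
  rw [← Units.coe_star, star_inv]
  congr 2
  exact Units.ext ht.star_eq

/-- the trace of `K⁻¹` -/
theorem tr_inv (τ : A →L[ℂ] ℂ) (hτ : TrSt τ) (s t : Aˣ) (V : A) (hs : IsSelfAdjoint (s : A))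
    (ht : IsSelfAdjoint (t : A)) (h : (t : A) * (t : A) = star V * ((s : A) * (s : A)) * V) :
    τ (((s⁻¹ : Aˣ) : A) * ((s⁻¹ : Aˣ) : A))
      = τ ((((t⁻¹ : Aˣ) : A) * ((t⁻¹ : Aˣ) : A)) * (star V * V)) := by
  set u : A := (s : A) * V * ((t⁻¹ : Aˣ) : A) with hu
  have hsu : star u = ((t⁻¹ : Aˣ) : A) * (star V * (s : A)) := by
    rw [hu, star_mul, star_mul, inv_sa t ht, hs.star_eq]
  have h1 : star u * u = 1 := by
    rw [hsu, hu]
    calc ((t⁻¹ : Aˣ) : A) * (star V * (s : A)) * ((s : A) * V * ((t⁻¹ : Aˣ) : A))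
        = ((t⁻¹ : Aˣ) : A) * (star V * ((s : A) * (s : A)) * V) * ((t⁻¹ : Aˣ) : A) := by
          simp only [mul_assoc]
      _ = ((t⁻¹ : Aˣ) : A) * (t : A) * ((t : A) * ((t⁻¹ : Aˣ) : A)) := by
          rw [← h]; simp only [mul_assoc]
      _ = 1 := by rw [Units.inv_mul, Units.mul_inv, mul_one]
  rw [← tr_isom τ hτ u _ h1, mul_assoc, hτ.tr]
  have h2 : star u * (((s⁻¹ : Aˣ) : A) * ((s⁻¹ : Aˣ) : A)) * u
      = ((t⁻¹ : Aˣ) : A) * (star V * V) * ((t⁻¹ : Aˣ) : A) := by
    rw [hsu, hu]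
    calc ((t⁻¹ : Aˣ) : A) * (star V * (s : A)) * (((s⁻¹ : Aˣ) : A) * ((s⁻¹ : Aˣ) : A))
          * ((s : A) * V * ((t⁻¹ : Aˣ) : A))
        = ((t⁻¹ : Aˣ) : A) * (star V * ((s : A) * ((s⁻¹ : Aˣ) : A))
          * (((s⁻¹ : Aˣ) : A) * (s : A)) * V) * ((t⁻¹ : Aˣ) : A) := by simp only [mul_assoc]
      _ = _ := by rw [Units.inv_mul, Units.mul_inv, mul_one, mul_one]
  rw [h2, hτ.tr, ← mul_assoc]

/-- comparison of two triangular elements -/
theorem tr_cross (τ : A →L[ℂ] ℂ) (hτ : TrSt τ) (s t : Aˣ) (V V' : A) (hs : IsSelfAdjoint (s : A))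
    (ht : IsSelfAdjoint (t : A))
    (h0 : τ ((((t⁻¹ : Aˣ) : A) * ((t⁻¹ : Aˣ) : A)) * (star (V' - V) * (((s : A) * (s : A)) * V))) = 0) :
    (τ ((((t⁻¹ : Aˣ) : A) * ((t⁻¹ : Aˣ) : A)) * (star V * ((s : A) * (s : A)) * V))).re
      ≤ (τ ((((t⁻¹ : Aˣ) : A) * ((t⁻¹ : Aˣ) : A)) * (star V' * ((s : A) * (s : A)) * V'))).re := by
  set E : A := ((t⁻¹ : Aˣ) : A) * ((t⁻¹ : Aˣ) : A) with hE
  set K : A := (s : A) * (s : A) with hK
  set N : A := V' - V with hN
  have hEs : star E = E := by rw [hE, star_mul, inv_sa t ht]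
  have hKs : star K = K := by rw [hK, star_mul, hs.star_eq]
  have e1 : V' = V + N := by rw [hN]; abel
  have e2 : star V' * K * V' = star V * K * V + star N * (K * V) + star V * (K * N)
      + star N * (K * N) := by
    rw [e1, star_add]
    simp only [add_mul, mul_add, mul_assoc]
    abel
  have h1 : τ (E * (star V * (K * N))) = 0 := by
    have e3 : star (E * (star V * (K * N))) = star N * (K * V) * E := by
      rw [star_mul, star_mul, star_mul, star_star, hEs, hKs]
      simp only [mul_assoc]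
    have h2 := hτ.herm (E * (star V * (K * N)))
    rw [e3, hτ.tr, h0] at h2
    have h3 := congrArg conj h2
    rw [map_zero, Complex.conj_conj] at h3
    exact h3.symm
  have h2 : 0 ≤ (τ (E * (star N * (K * N)))).re := by
    have h3 := hτ.pos ((s : A) * N * ((t⁻¹ : Aˣ) : A))
    have e4 : star ((s : A) * N * ((t⁻¹ : Aˣ) : A)) * ((s : A) * N * ((t⁻¹ : Aˣ) : A))
        = ((t⁻¹ : Aˣ) : A) * (star N * (K * N)) * ((t⁻¹ : Aˣ) : A) := by
      rw [star_mul, star_mul, inv_sa t ht, hs.star_eq, hK]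
      simp only [mul_assoc]
    rw [e4, hτ.tr, ← mul_assoc] at h3
    exact h3
  rw [e2, mul_add, mul_add, mul_add, map_add, map_add, map_add, h0, h1, add_zero, add_zero,
    Complex.add_re]
  linarith

end

section
variable {A : Type} [CStarAlgebra A] [PartialOrder A] [StarOrderedRing A]

omit [PartialOrder A] [StarOrderedRing A] in
theorem tau_real (τ : A →L[ℂ] ℂ) (hτ : TrSt τ) (r : ℝ) : τ (algebraMap ℝ A r) = r := by
  rw [Algebra.algebraMap_eq_smul_one, ← Complex.coe_smul, map_smul, hτ.one, smul_eq_mul, mul_one]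

omit [PartialOrder A] [StarOrderedRing A] in
theorem ld_algebraMap (τ : A →L[ℂ] ℂ) (hτ : TrSt τ) (r : ℝ) :
    ld τ (algebraMap ℝ A r) = Real.log r := by
  unfold ld
  have : CFC.log (algebraMap ℝ A r) = algebraMap ℝ A (Real.log r) := by
    unfold CFC.log
    exact cfc_algebraMap r Real.log
  rw [this, tau_real τ hτ, Complex.ofReal_re]

/-- the variation inequality -/
theorem var (τ : A →L[ℂ] ℂ) (hτ : TrSt τ) (S V V' : A) (δ δ' : ℝ)
    (s s' t' : Aˣ) (D : A)
    (hs : IsSelfAdjoint (s : A)) (hs' : IsSelfAdjoint (s' : A)) (ht' : IsSelfAdjoint (t' : A))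
    (hK : (s : A) * (s : A) = algebraMap ℝ A δ + star S * S)
    (hK' : (s' : A) * (s' : A) = algebraMap ℝ A δ' + star S * S)
    (hD : D = star V * ((s : A) * (s : A)) * V) (hDp : IsStrictlyPositive D)
    (hD' : (t' : A) * (t' : A) = star V' * ((s' : A) * (s' : A)) * V')
    (h0 : τ ((((t'⁻¹ : Aˣ) : A) * ((t'⁻¹ : Aˣ) : A))
      * (star (V' - V) * (((s : A) * (s : A)) * V))) = 0) :
    ld τ D ≤ ld τ ((t' : A) * (t' : A))
      - (δ' - δ) * (τ (((s'⁻¹ : Aˣ) : A) * ((s'⁻¹ : Aˣ) : A))).re := by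
  have h1 := klein τ hτ hDp t' ht' rfl
  have h2 := tr_cross τ hτ s t' V V' hs ht' h0
  rw [← hD] at h2
  have h3 := tr_inv τ hτ s' t' V' hs' ht' hD'
  have e1 : star V' * ((s : A) * (s : A)) * V'
      = (t' : A) * (t' : A) - ((δ' - δ : ℝ) : ℂ) • (star V' * V') := by
    rw [hD', hK, hK', Complex.coe_smul]
    have e2 : algebraMap ℝ A δ + star S * S
        = (algebraMap ℝ A δ' + star S * S) - (δ' - δ) • (1 : A) := by
      rw [Algebra.algebraMap_eq_smul_one, Algebra.algebraMap_eq_smul_one, sub_smul]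
      abel
    rw [e2]
    simp only [mul_sub, sub_mul, mul_smul_comm, smul_mul_assoc, mul_one]
  have e3 : (((t'⁻¹ : Aˣ) : A) * ((t'⁻¹ : Aˣ) : A)) * ((t' : A) * (t' : A)) = 1 := by
    calc ((t'⁻¹ : Aˣ) : A) * ((t'⁻¹ : Aˣ) : A) * ((t' : A) * (t' : A))
        = ((t'⁻¹ : Aˣ) : A) * (((t'⁻¹ : Aˣ) : A) * (t' : A)) * (t' : A) := by simp only [mul_assoc]
      _ = 1 := by rw [Units.inv_mul, mul_one, Units.inv_mul]
  rw [e1, mul_sub, e3, mul_smul_comm, map_sub, map_smul, hτ.one, smul_eq_mul, ← h3, Complex.sub_re,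
    Complex.one_re, Complex.re_ofReal_mul] at h2
  linarith

end

/-- a comparison lemma for functions on the half-line -/
theorem halfline (h T : ℝ → ℝ) (hT : ∀ x, 0 < x → 0 ≤ T x)
    (h1 : ∀ x y, 0 < x → x ≤ y → h x ≤ h y + (y - x) * (T x - T y)) (c : ℝ) (hc : 0 ≤ c)
    (h2 : ∀ M, 0 < M → h M ≤ Real.log (M + c) - Real.log M) (x : ℝ) (hx : 0 < x) : h x ≤ 0 := by
  have step : ∀ M, x < M → h x ≤ h M := by
    intro M hM
    have key : ∀ N : ℕ, 1 ≤ N → h x ≤ h M + (M - x) / N * T x := by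
      intro N hN
      have hN0 : (0:ℝ) < N := by exact_mod_cast hN
      set η : ℝ := (M - x) / N with hη
      have hη0 : 0 < η := div_pos (by linarith) hN0
      have ind : ∀ i : ℕ, h x ≤ h (x + i * η) + η * (T x - T (x + i * η)) := by
        intro i
        induction i with
        | zero => simp
        | succ i ih =>
          have hxi : 0 < x + i * η := by positivity
          have h3 := h1 (x + i * η) (x + ((i + 1 : ℕ) : ℝ) * η) hxi (by push_cast; nlinarith)
          have e : x + ((i + 1 : ℕ) : ℝ) * η - (x + i * η) = η := by push_cast; ring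
          rw [e] at h3
          linarith
      have h4 := ind N
      have e5 : x + N * η = M := by rw [hη]; field_simp; ring
      rw [e5] at h4
      have h6 := mul_nonneg hη0.le (hT M (by linarith))
      linarith
    have hlim : Tendsto (fun N : ℕ => h M + (M - x) / N * T x) atTop (𝓝 (h M + 0 * T x)) :=
      tendsto_const_nhds.add ((tendsto_const_div_atTop_nhds_zero_nat (M - x)).mul_const _)
    rw [zero_mul, add_zero] at hlim
    refine ge_of_tendsto hlim ?_
    filter_upwards [eventually_ge_atTop 1] with N hN using key N hN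
  have hlim : Tendsto (fun M : ℝ => Real.log (M + c) - Real.log M) atTop (𝓝 0) := by
    have h5 : Tendsto (fun M : ℝ => 1 + c / M) atTop (𝓝 (1 + 0)) :=
      tendsto_const_nhds.add (tendsto_const_nhds.div_atTop tendsto_id)
    rw [add_zero] at h5
    have h6 := (Real.continuousAt_log one_ne_zero).tendsto.comp h5
    rw [Real.log_one] at h6
    refine h6.congr' ?_
    filter_upwards [eventually_gt_atTop 0] with M hM
    have e7 : 1 + c / M = (M + c) / M := by field_simp
    simp only [Function.comp_apply]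
    rw [e7, Real.log_div (by positivity) hM.ne']
  refine ge_of_tendsto hlim ?_
  filter_upwards [eventually_gt_atTop x] with M hM
  exact (step M hM).trans (h2 M (hx.trans hM))

end Pool.Agent.J6H88.JO
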