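import Pool.Agent.H712R5.BO.B1
import Pool.Agent.H712R5.BO.B2
import Pool.Agent.H712R5.BO.B2a
import Pool.Agent.H712R5.BO.B4v
import Pool.Agent.H712R5.BO.D1

/-!
# Logarithmic determinants in tracial C*-algebras

`ld τ X = τ (log X)` for positive invertible `X`: multiplicativity, Klein's inequality, and the lower bound
for the determinant of a product.
-/

set_option autoImplicit false
open scoped ComplexConjugate InnerProductSpace Topology
open Filter MeasureTheory NormedSpace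

namespace Pool.Agent.J6H88.JO
open Pool.Agent.H712R5.BO

/-- the trace of the logarithm -/
noncomputable def ld {A : Type} [CStarAlgebra A] (τ : A →L[ℂ] ℂ) (X : A) : ℝ :=
  (τ (CFC.log X)).re

section path
variable {A : Type} [CStarAlgebra A]

theorem path_spec (γ : Aˣ) (C : ℝ) (hC : 0 < C) (h0 : ∀ x ∈ spectrum ℝ (γ : A), 0 ≤ x)
    (h1 : ‖(γ : A)‖ ≤ C) (h2 : ‖((γ⁻¹ : Aˣ) : A)‖ ≤ C) [Nontrivial A] :
    spectrum ℝ (γ : A) ⊆ Set.Icc (C⁻¹) C := by
  intro x hx
  have k0 : 0 ≤ x := h0 x hx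
  have k1 : ‖x‖ ≤ ‖(γ : A)‖ := spectrum.norm_le_norm_of_mem hx
  have k2 : x ≤ C := (le_abs_self x).trans (k1.trans h1)
  have hx0 : x ≠ 0 := fun h00 => by
    rw [h00] at hx
    exact (spectrum.zero_notMem_iff ℝ |>.mpr γ.isUnit) hx
  have h3 : x⁻¹ ∈ spectrum ℝ (((γ)⁻¹ : Aˣ) : A) := by
    have := (spectrum.inv_mem_iff (r := Units.mk0 x hx0) (a := γ)).mp hx
    simpa using this
  have h4 : ‖x⁻¹‖ ≤ ‖((γ⁻¹ : Aˣ) : A)‖ := spectrum.norm_le_norm_of_mem h3
  have h5 : x⁻¹ ≤ C := (le_abs_self _).trans (h4.trans h2)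
  have hxp : 0 < x := lt_of_le_of_ne k0 (Ne.symm hx0)
  exact ⟨by rwa [inv_le_comm₀ hC hxp], k2⟩

/-- the derivative of `τ log |u|²` along a path of units -/
theorem path_deriv (τ : A →L[ℂ] ℂ) (hτ : TrSt τ) (u : ℝ → Aˣ) (w : ℝ → A)
    (hu : ∀ t, HasDerivAt (fun s => ((u s : Aˣ) : A)) (w t) t) (hw : Continuous w)
    (hi : Continuous fun t => (((u t)⁻¹ : Aˣ) : A)) (t : ℝ) (ht : t ∈ Set.Ioo (-2:ℝ) 2) :
    HasDerivAt (fun s => ld τ (star (u s : A) * (u s : A)))
      (2 * (τ ((((u t)⁻¹ : Aˣ) : A) * w t)).re) t := by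
  have : Nontrivial A := by
    refine ⟨⟨1, 0, fun h0 => ?_⟩⟩
    have := hτ.one
    rw [h0, map_zero] at this
    exact zero_ne_one this
  set γ : ℝ → A := fun t => star (u t : A) * (u t : A) with hγ
  set γ' : ℝ → A := fun t => star (w t) * (u t : A) + star (u t : A) * w t with hγ'
  have hder : ∀ t : ℝ, HasDerivAt γ (γ' t) t := fun t => (hu t).star.mul (hu t)
  have huc : Continuous fun t => ((u t : Aˣ) : A) :=
    continuous_iff_continuousAt.mpr (fun t => (hu t).continuousAt)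
  have hcont : Continuous γ := huc.star.mul huc
  have hcont' : Continuous γ' := (hw.star.mul huc).add (huc.star.mul hw)
  set U : ℝ → Aˣ := fun t => star (u t) * u t with hU
  have hU1 : ∀ t, ((U t : Aˣ) : A) = γ t := fun t => by simp [hU, hγ]
  have hU2 : ∀ t, (((U t)⁻¹ : Aˣ) : A) = (((u t)⁻¹ : Aˣ) : A) * star (((u t)⁻¹ : Aˣ) : A) := by
    intro t
    rw [hU]
    simp only [mul_inv_rev, Units.val_mul]
    rw [← star_inv, Units.coe_star]
  have hιc : Continuous fun t => (((U t)⁻¹ : Aˣ) : A) := by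
    simp_rw [hU2]
    exact hi.mul hi.star
  obtain ⟨C1, hC1⟩ := (isCompact_Icc (a := (-2:ℝ)) (b := 2)).exists_bound_of_continuousOn
    hcont.continuousOn
  obtain ⟨C2, hC2⟩ := (isCompact_Icc (a := (-2:ℝ)) (b := 2)).exists_bound_of_continuousOn
    hιc.continuousOn
  obtain ⟨C3, hC3⟩ := (isCompact_Icc (a := (-2:ℝ)) (b := 2)).exists_bound_of_continuousOn
    hcont'.continuousOn
  set C : ℝ := max C1 (max C2 1) with hC
  have hCpos : 0 < C := lt_of_lt_of_le one_pos ((le_max_right _ _).trans (le_max_right _ _))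
  have hsa : ∀ t, IsSelfAdjoint (γ t) := fun t => IsSelfAdjoint.star_mul_self _
  have hspec : ∀ t ∈ Set.Ioo (-2:ℝ) 2, spectrum ℝ (γ t) ⊆ Set.Icc (C⁻¹) C := by
    intro t ht
    have ht' : t ∈ Set.Icc (-2:ℝ) 2 := ⟨ht.1.le, ht.2.le⟩
    have := path_spec (U t) C hCpos (by
      rw [hU1]
      intro x hx
      exact spectrum_star_mul_self_nonneg x hx) (by
      rw [hU1]
      exact (hC1 t ht').trans (le_max_left _ _)) ((hC2 t ht').trans
        ((le_max_left _ _).trans (le_max_right _ _)))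
    rwa [hU1] at this
  have h := t_B2 t_B2a t_B1 A τ hτ γ γ' (-2) 2 (C⁻¹) C (inv_pos.mpr hCpos) (fun t _ => hder t)
      hcont'.continuousOn (fun t ht => ⟨hsa t, hspec t ht⟩)
      ⟨C3, fun t ht => hC3 t ⟨ht.1.le, ht.2.le⟩⟩ Real.log (fun x => x⁻¹)
      (fun x hx => Real.hasDerivAt_log hx.ne') (continuousOn_inv₀.mono (fun x hx => ne_of_gt hx)) t ht
  have h' := (Complex.reCLM.hasFDerivAt).comp_hasDerivAt t h
  refine h'.congr_deriv ?_
  have e1 : cfc (fun x : ℝ => x⁻¹) (γ t) = (((U t)⁻¹ : Aˣ) : A) := by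
    rw [← hU1]
    exact cfc_inv_id (U t) (by rw [hU1]; exact hsa t)
  rw [e1, hU2, hγ']
  have e2 : (((u t)⁻¹ : Aˣ) : A) * star (((u t)⁻¹ : Aˣ) : A)
      * (star (w t) * (u t : A) + star (u t : A) * w t)
      = (((u t)⁻¹ : Aˣ) : A) * (star (((u t)⁻¹ : Aˣ) : A) * star (w t) * (u t : A))
        + (((u t)⁻¹ : Aˣ) : A) * w t := by
    have e3 : star (((u t)⁻¹ : Aˣ) : A) * star (u t : A) = 1 := by
      rw [← star_mul, Units.mul_inv, star_one]
    calc _ = (((u t)⁻¹ : Aˣ) : A) * (star (((u t)⁻¹ : Aˣ) : A) * star (w t) * (u t : A))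
          + (((u t)⁻¹ : Aˣ) : A) * (star (((u t)⁻¹ : Aˣ) : A) * star (u t : A)) * w t := by
            simp only [mul_add, mul_assoc]
      _ = _ := by rw [e3, mul_one]
  have e4 : τ ((((u t)⁻¹ : Aˣ) : A) * (star (((u t)⁻¹ : Aˣ) : A) * star (w t) * (u t : A)))
      = conj (τ ((((u t)⁻¹ : Aˣ) : A) * w t)) := by
    rw [hτ.tr, mul_assoc, Units.mul_inv, mul_one, ← star_mul, hτ.herm, hτ.tr]
  rw [e2, map_add, e4]
  simp only [Complex.reCLM_apply, Complex.add_re, Complex.conj_re]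
  ring

theorem expu (h : A) : ∃ e : ℝ → Aˣ, (∀ t, (e t : A) = exp (t • h)) ∧
    (∀ t, ((e t)⁻¹ : Aˣ) = exp ((-t) • h)) := by
  refine ⟨fun t => ⟨exp (t • h), exp ((-t) • h), ?_, ?_⟩, fun t => rfl, fun t => rfl⟩
  · let : NormedAlgebra ℚ A := .restrictScalars ℚ ℂ A
    have hc : Commute (t • h) ((-t) • h) := ((Commute.refl h).smul_left t).smul_right (-t)
    rw [← exp_add_of_commute hc, ← add_smul]
    simp
  · let : NormedAlgebra ℚ A := .restrictScalars ℚ ℂ A
    have hc : Commute ((-t) • h) (t • h) := ((Commute.refl h).smul_left (-t)).smul_right t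
    rw [← exp_add_of_commute hc, ← add_smul]
    simp

/-- multiplicativity of the determinant -/
theorem ld_mul (τ : A →L[ℂ] ℂ) (hτ : TrSt τ) (S R : A) (hS : IsUnit S) (hR : IsUnit R) :
    ld τ (star (S * R) * (S * R)) = ld τ (star S * S) + ld τ (star R * R) := by
  set h : A := Lg S with hh
  have hsa : IsSelfAdjoint h := B4v_Lg_sa S
  have hex : exp h = star S * S := B4v_exp_Lg S hS
  obtain ⟨r, rfl⟩ := hR
  obtain ⟨e, he, hei⟩ := expu ((1/2:ℝ) • h)
  set u : ℝ → Aˣ := fun t => e t * r with hu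
  set w : ℝ → A := fun t => exp (t • ((1/2:ℝ) • h)) * ((1/2:ℝ) • h) * (r : A) with hw
  have hexpc : Continuous (fun t : ℝ => exp (t • ((1/2:ℝ) • h))) :=
    continuous_iff_continuousAt.mpr (fun t => (hasDerivAt_exp_smul_const ((1/2:ℝ) • h) t).continuousAt)
  have h1 : ∀ t, HasDerivAt (fun s => ((u s : Aˣ) : A)) (w t) t := by
    intro t
    have := (hasDerivAt_exp_smul_const ((1/2:ℝ) • h) t).mul_const (r : A)
    simp only [hu, Units.val_mul, he]
    exact this
  have h2 : Continuous w := (hexpc.mul continuous_const).mul continuous_const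
  have h3 : Continuous fun t => (((u t)⁻¹ : Aˣ) : A) := by
    simp only [hu, mul_inv_rev, Units.val_mul]
    simp_rw [hei]
    exact continuous_const.mul (hexpc.comp continuous_neg)
  have h4 : ∀ t, (τ ((((u t)⁻¹ : Aˣ) : A) * w t)).re = (1/2) * (τ h).re := by
    intro t
    have e0 : (((u t)⁻¹ : Aˣ) : A) * w t = ((r⁻¹ : Aˣ) : A) * (((1/2:ℝ) • h) * (r : A)) := by
      simp only [hu, hw, mul_inv_rev, Units.val_mul]
      have e5 : (((e t)⁻¹ : Aˣ) : A) * exp (t • ((1/2:ℝ) • h)) = 1 := by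
        rw [← he, Units.inv_mul]
      calc ((r⁻¹ : Aˣ) : A) * (((e t)⁻¹ : Aˣ) : A) * (exp (t • ((1/2:ℝ) • h)) * ((1/2:ℝ) • h) * (r : A))
          = ((r⁻¹ : Aˣ) : A) * ((((e t)⁻¹ : Aˣ) : A) * exp (t • ((1/2:ℝ) • h)))
            * (((1/2:ℝ) • h) * (r : A)) := by simp only [mul_assoc]
        _ = _ := by rw [e5, mul_one]
    rw [e0, hτ.tr, mul_assoc, Units.mul_inv, mul_one, ← Complex.coe_smul, map_smul, smul_eq_mul]
    simp
  have key := path_deriv τ hτ u w h1 h2 h3
  simp_rw [h4] at key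
  have hconst : ∀ x ∈ Set.Icc (0:ℝ) 1,
      (fun s : ℝ => ld τ (star (u s : A) * (u s : A)) - s * (2 * (1 / 2 * (τ h).re))) x
        = (fun s : ℝ => ld τ (star (u s : A) * (u s : A)) - s * (2 * (1 / 2 * (τ h).re))) 0 := by
    have hd : ∀ x ∈ Set.Icc (0:ℝ) 1,
        HasDerivAt (fun s : ℝ => ld τ (star (u s : A) * (u s : A)) - s * (2 * (1 / 2 * (τ h).re)))
          0 x := by
      intro x hx
      have h1 := key x ⟨by linarith [hx.1], by linarith [hx.2]⟩
      have h2 : HasDerivAt (fun s : ℝ => s * (2 * (1 / 2 * (τ h).re))) (2 * (1 / 2 * (τ h).re)) x := by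
        simpa using (hasDerivAt_id x).mul_const (2 * (1 / 2 * (τ h).re))
      have := h1.sub h2
      rwa [sub_self] at this
    apply constant_of_has_deriv_right_zero
    · exact fun x hx => (hd x hx).continuousAt.continuousWithinAt
    · exact fun x hx => (hd x ⟨hx.1, hx.2.le⟩).hasDerivWithinAt
  have h5 := hconst 1 ⟨zero_le_one, le_refl 1⟩
  have u0 : (u 0 : A) = r := by
    simp [hu, he]
  have u1 : star (u 1 : A) * (u 1 : A) = star (S * r) * (S * r) := by
    have e6 : star (exp ((1/2:ℝ) • h)) * exp ((1/2:ℝ) • h) = star S * S := by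
      rw [← hex]
      let : NormedAlgebra ℚ A := .restrictScalars ℚ ℂ A
      have : IsSelfAdjoint ((1/2:ℝ) • h) := (IsSelfAdjoint.all (1/2:ℝ)).smul hsa
      rw [star_exp, this.star_eq, ← exp_add_of_commute (Commute.refl _), ← add_smul]
      norm_num
    simp only [hu, Units.val_mul, he, one_smul, star_mul]
    calc star (r : A) * star (exp ((1/2:ℝ) • h)) * (exp ((1/2:ℝ) • h) * (r : A))
        = star (r : A) * (star (exp ((1/2:ℝ) • h)) * exp ((1/2:ℝ) • h)) * (r : A) := by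
          simp only [mul_assoc]
      _ = _ := by rw [e6]; simp only [mul_assoc]
  simp only [u0, u1, one_mul, zero_mul, sub_zero] at h5
  have h6 : ld τ (star S * S) = (τ h).re := rfl
  rw [h6]
  linarith

end path

section order
variable {A : Type} [CStarAlgebra A] [PartialOrder A] [StarOrderedRing A]

/-- square root of a strictly positive element -/
theorem exists_sqrt (K : A) (hK : IsStrictlyPositive K) :
    ∃ s : Aˣ, IsSelfAdjoint (s : A) ∧ (s : A) * (s : A) = K := by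
  have h1 : IsUnit (CFC.sqrt K) := CFC.isUnit_sqrt_iff_isStrictlyPositive.2 hK
  obtain ⟨s, hs⟩ := h1
  refine ⟨s, ?_, ?_⟩
  · rw [hs]
    exact (CFC.sqrt_nonneg K).isSelfAdjoint
  · rw [hs]
    exact CFC.sqrt_mul_sqrt_self K hK.nonneg

theorem sp_star_mul (s : Aˣ) : IsStrictlyPositive (star (s : A) * (s : A)) :=
  (s.isUnit.star.mul s.isUnit).isStrictlyPositive (star_mul_self_nonneg (s : A))

theorem sp_add {δ : ℝ} (hδ : 0 < δ) (S : A) :
    IsStrictlyPositive (algebraMap ℝ A δ + star S * S) := by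
  refine IsStrictlyPositive.add_nonneg ?_ (star_mul_self_nonneg S)
  have : IsUnit (algebraMap ℝ A δ) := (Ne.isUnit hδ.ne').map _
  exact this.isStrictlyPositive (by
    rw [Algebra.algebraMap_eq_smul_one]
    exact smul_nonneg hδ.le zero_le_one)

theorem tau_mono (τ : A →L[ℂ] ℂ) (hτ : TrSt τ) {a b : A} (h : a ≤ b) : (τ a).re ≤ (τ b).re :=
  (t_D1 A τ hτ).1 a b h

theorem ld_mono (τ : A →L[ℂ] ℂ) (hτ : TrSt τ) {a b : A} (ha : IsStrictlyPositive a) (h : a ≤ b) :
    ld τ a ≤ ld τ b :=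
  (t_D1 A τ hτ).2 a b ha h

omit [PartialOrder A] [StarOrderedRing A] in
theorem ld_one (τ : A →L[ℂ] ℂ) : ld τ (1 : A) = 0 := by
  have := CFC.log_one (A := A)
  simp [ld, this]

/-- `log X ≤ X - 1` -/
theorem ld_le (τ : A →L[ℂ] ℂ) (hτ : TrSt τ) {X : A} (hX : IsStrictlyPositive X) :
    ld τ X ≤ (τ X).re - 1 := by
  have hsp : ∀ x ∈ spectrum ℝ X, 0 < x := fun x hx => hX.spectrum_pos hx
  have h1 : CFC.log X ≤ X - 1 := by
    have hsa : IsSelfAdjoint X := hX.nonneg.isSelfAdjoint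
    have e1 : X - 1 = cfc (fun x : ℝ => x - 1) X := by
      rw [cfc_sub (fun x : ℝ => x) (fun _ => 1) X, cfc_id' ℝ X, cfc_const_one ℝ X]
    rw [e1]
    unfold CFC.log
    refine cfc_mono (fun x hx => ?_) ?_ ?_
    · have := Real.log_le_sub_one_of_pos (hsp x hx)
      exact this
    · exact Real.continuousOn_log.mono fun x hx => (hsp x hx).ne'
    · fun_prop
  have h2 := tau_mono τ hτ h1
  rw [map_sub, Complex.sub_re, hτ.one, Complex.one_re] at h2
  exact h2

/-- Klein's inequality -/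
theorem klein (τ : A →L[ℂ] ℂ) (hτ : TrSt τ) {X Y : A} (hX : IsStrictlyPositive X)
    (t : Aˣ) (ht : IsSelfAdjoint (t : A)) (htY : (t : A) * (t : A) = Y) :
    ld τ X ≤ ld τ Y + (τ ((((t⁻¹ : Aˣ) : A) * ((t⁻¹ : Aˣ) : A)) * X)).re - 1 := by
  obtain ⟨s, hs, hsX⟩ := exists_sqrt X hX
  have ti : star ((t⁻¹ : Aˣ) : A) = ((t⁻¹ : Aˣ) : A) := by
    rw [← Units.coe_star, star_inv]
    congr 2
    exact Units.ext ht.star_eq
  have h1 := ld_mul τ hτ (s : A) ((t⁻¹ : Aˣ) : A) s.isUnit (t⁻¹).isUnit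
  have h2 := ld_mul τ hτ (t : A) ((t⁻¹ : Aˣ) : A) t.isUnit (t⁻¹).isUnit
  rw [Units.mul_inv, star_one, one_mul, ld_one, ht.star_eq, htY] at h2
  rw [hs.star_eq, hsX] at h1
  have e1 : star ((s : A) * ((t⁻¹ : Aˣ) : A)) * ((s : A) * ((t⁻¹ : Aˣ) : A))
      = ((t⁻¹ : Aˣ) : A) * X * ((t⁻¹ : Aˣ) : A) := by
    rw [star_mul, ti, hs.star_eq, ← hsX]
    simp only [mul_assoc]
  have h3 : ld τ (star ((s : A) * ((t⁻¹ : Aˣ) : A)) * ((s : A) * ((t⁻¹ : Aˣ) : A)))
      ≤ (τ (star ((s : A) * ((t⁻¹ : Aˣ) : A)) * ((s : A) * ((t⁻¹ : Aˣ) : A)))).re - 1 :=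
    ld_le τ hτ (sp_star_mul (s * t⁻¹))
  have e2 : τ (((t⁻¹ : Aˣ) : A) * X * ((t⁻¹ : Aˣ) : A))
      = τ ((((t⁻¹ : Aˣ) : A) * ((t⁻¹ : Aˣ) : A)) * X) := by
    rw [hτ.tr, mul_assoc]
  rw [e1, e2] at h3
  rw [e1] at h1
  linarith

/-- `s ↦ τ log (s + S*S)` is concave -/
theorem ld_concave (τ : A →L[ℂ] ℂ) (hτ : TrSt τ) (S : A) {δ δ' : ℝ} (hδ' : 0 < δ')
    (t : Aˣ) (ht : IsSelfAdjoint (t : A)) (htY : (t : A) * (t : A) = algebraMap ℝ A δ + star S * S) :
    ld τ (algebraMap ℝ A δ' + star S * S) ≤ ld τ (algebraMap ℝ A δ + star S * S)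
      + (δ' - δ) * (τ (((t⁻¹ : Aˣ) : A) * ((t⁻¹ : Aˣ) : A))).re := by
  have h1 := klein τ hτ (sp_add hδ' S) t ht htY
  have e1 : algebraMap ℝ A δ' + star S * S
      = (t : A) * (t : A) + ((δ' - δ : ℝ) : ℂ) • (1 : A) := by
    rw [htY, Complex.coe_smul, Algebra.algebraMap_eq_smul_one, Algebra.algebraMap_eq_smul_one,
      sub_smul]
    abel
  have e2 : (((t⁻¹ : Aˣ) : A) * ((t⁻¹ : Aˣ) : A)) * (algebraMap ℝ A δ' + star S * S)
      = 1 + ((δ' - δ : ℝ) : ℂ) • (((t⁻¹ : Aˣ) : A) * ((t⁻¹ : Aˣ) : A)) := by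
    rw [e1, mul_add, mul_smul_comm, mul_one]
    congr 1
    calc ((t⁻¹ : Aˣ) : A) * ((t⁻¹ : Aˣ) : A) * ((t : A) * (t : A))
        = ((t⁻¹ : Aˣ) : A) * (((t⁻¹ : Aˣ) : A) * (t : A)) * (t : A) := by simp only [mul_assoc]
      _ = 1 := by rw [Units.inv_mul, mul_one, Units.inv_mul]
  rw [e2, map_add, map_smul, hτ.one, smul_eq_mul, Complex.add_re, Complex.one_re,
    Complex.re_ofReal_mul] at h1
  linarith

end order

section comm
variable {A : Type} [CStarAlgebra A]

theorem tr_pow (τ : A →L[ℂ] ℂ) (hτ : TrSt τ) (X Y : A) (n : ℕ) :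
    τ ((X * Y) ^ n) = τ ((Y * X) ^ n) := by
  cases n with
  | zero => simp
  | succ n =>
    have h1 : ∀ m : ℕ, (X * Y) ^ (m + 1) = X * ((Y * X) ^ m * Y) := by
      intro m
      induction m with
      | zero => simp
      | succ m ih =>
        rw [pow_succ', ih, pow_succ' (Y * X) m]
        simp only [mul_assoc]
    rw [h1, hτ.tr]
    congr 1
    rw [pow_succ]
    simp only [mul_assoc]

theorem tr_poly (τ : A →L[ℂ] ℂ) (hτ : TrSt τ) (X Y : A) (p : Polynomial ℝ) :
    τ (Polynomial.aeval (X * Y) p) = τ (Polynomial.aeval (Y * X) p) := by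
  induction p using Polynomial.induction_on' with
  | add p q hp hq => rw [map_add, map_add, map_add, map_add, hp, hq]
  | monomial n a =>
    rw [Polynomial.aeval_monomial, Polynomial.aeval_monomial, Algebra.algebraMap_eq_smul_one,
      smul_mul_assoc, smul_mul_assoc, one_mul, one_mul, ← Complex.coe_smul, ← Complex.coe_smul,
      map_smul, map_smul, tr_pow τ hτ]

theorem norm_sub_poly (a : A) (ha : IsSelfAdjoint a) (M : ℝ) (hs : spectrum ℝ a ⊆ Set.Icc 0 M)
    (f : ℝ → ℝ) (hf : ContinuousOn f (Set.Icc 0 M)) (p : Polynomial ℝ) (ε : ℝ) (hε : 0 ≤ ε)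
    (hp : ∀ x ∈ Set.Icc 0 M, |p.eval x - f x| ≤ ε) : ‖Polynomial.aeval a p - cfc f a‖ ≤ ε := by
  have e1 : Polynomial.aeval a p = cfc (fun x => p.eval x) a := (cfc_polynomial p a).symm
  rw [e1, ← cfc_sub _ _ a (by fun_prop) (hf.mono hs)]
  refine norm_cfc_le hε fun x hx => ?_
  rw [Real.norm_eq_abs]
  exact hp x (hs hx)

theorem tr_cfc (τ : A →L[ℂ] ℂ) (hτ : TrSt τ) (Z : A) (f : ℝ → ℝ) (hf : ContinuousOn f (Set.Ici 0)) :
    τ (cfc f (star Z * Z)) = τ (cfc f (Z * star Z)) := by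
  rcases subsingleton_or_nontrivial A with hA | hA
  · rw [Subsingleton.elim (cfc f (star Z * Z)) (cfc f (Z * star Z))]
  set M : ℝ := max ‖star Z * Z‖ ‖Z * star Z‖ with hM
  have s1 : spectrum ℝ (star Z * Z) ⊆ Set.Icc 0 M := fun x hx =>
    ⟨spectrum_star_mul_self_nonneg x hx,
      (le_abs_self x).trans ((spectrum.norm_le_norm_of_mem hx).trans (le_max_left _ _))⟩
  have s2 : spectrum ℝ (Z * star Z) ⊆ Set.Icc 0 M := fun x hx =>
    ⟨by
      have : x ∈ spectrum ℝ (star (star Z) * star Z) := by rwa [star_star]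
      exact spectrum_star_mul_self_nonneg x this,
      (le_abs_self x).trans ((spectrum.norm_le_norm_of_mem hx).trans (le_max_right _ _))⟩
  have hfc : ContinuousOn f (Set.Icc 0 M) := hf.mono fun x hx => hx.1
  have key : ∀ ε > 0, ‖τ (cfc f (star Z * Z)) - τ (cfc f (Z * star Z))‖ ≤ 2 * ‖τ‖ * ε := by
    intro ε hε
    obtain ⟨p, hp⟩ := exists_polynomial_near_of_continuousOn 0 M f hfc ε hε
    have h1 := norm_sub_poly (star Z * Z) (IsSelfAdjoint.star_mul_self Z) M s1 f hfc p ε hε.le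
      (fun x hx => (hp x hx).le)
    have h2 := norm_sub_poly (Z * star Z) (IsSelfAdjoint.mul_star_self Z) M s2 f hfc p ε hε.le
      (fun x hx => (hp x hx).le)
    have h3 : τ (cfc f (star Z * Z)) - τ (cfc f (Z * star Z))
        = τ (Polynomial.aeval (Z * star Z) p - cfc f (Z * star Z))
          - τ (Polynomial.aeval (star Z * Z) p - cfc f (star Z * Z)) := by
      rw [map_sub, map_sub, tr_poly τ hτ (star Z) Z p]
      ring
    rw [h3]
    refine (norm_sub_le _ _).trans ?_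
    have h4 := τ.le_opNorm (Polynomial.aeval (Z * star Z) p - cfc f (Z * star Z))
    have h5 := τ.le_opNorm (Polynomial.aeval (star Z * Z) p - cfc f (star Z * Z))
    have h6 := mul_le_mul_of_nonneg_left h1 (norm_nonneg τ)
    have h7 := mul_le_mul_of_nonneg_left h2 (norm_nonneg τ)
    linarith
  by_contra hne
  have hpos : 0 < ‖τ (cfc f (star Z * Z)) - τ (cfc f (Z * star Z))‖ :=
    norm_pos_iff.2 (sub_ne_zero.2 hne)
  set D := ‖τ (cfc f (star Z * Z)) - τ (cfc f (Z * star Z))‖ with hD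
  have hk := key (D / (2 * ‖τ‖ * 2 + 2)) (by positivity)
  have hτn := norm_nonneg τ
  rw [mul_div_assoc', le_div_iff₀ (by positivity)] at hk
  nlinarith

theorem log_add (Z : A) (δ : ℝ) (hδ : 0 < δ) :
    CFC.log (algebraMap ℝ A δ + star Z * Z) = cfc (fun x => Real.log (δ + x)) (star Z * Z) := by
  have hsa : IsSelfAdjoint (star Z * Z) := IsSelfAdjoint.star_mul_self Z
  have e1 : algebraMap ℝ A δ + star Z * Z = cfc (fun x : ℝ => δ + x) (star Z * Z) := by
    rw [cfc_const_add δ (fun x : ℝ => x) (star Z * Z), cfc_id' ℝ (star Z * Z)]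
  have hc : ContinuousOn Real.log ((fun x => δ + x) '' spectrum ℝ (star Z * Z)) := by
    refine Real.continuousOn_log.mono ?_
    rintro _ ⟨x, hx, rfl⟩
    have := spectrum_star_mul_self_nonneg x hx
    simp only [Set.mem_compl_iff, Set.mem_singleton_iff]
    linarith
  unfold CFC.log
  rw [e1, ← cfc_comp' Real.log (fun x : ℝ => δ + x) (star Z * Z) hc]

theorem ld_comm (τ : A →L[ℂ] ℂ) (hτ : TrSt τ) (Z : A) (δ : ℝ) (hδ : 0 < δ) :
    ld τ (algebraMap ℝ A δ + star Z * Z) = ld τ (algebraMap ℝ A δ + Z * star Z) := by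
  have h1 := log_add Z δ hδ
  have h2 := log_add (star Z) δ hδ
  rw [star_star] at h2
  unfold ld
  rw [h1, h2, tr_cfc τ hτ Z]
  refine ContinuousOn.log (by fun_prop) fun x hx => ?_
  have : (0:ℝ) ≤ x := hx
  linarith

end comm

section prod
variable {A : Type} [CStarAlgebra A] [PartialOrder A] [StarOrderedRing A]

theorem algebraMap_mono {a b : ℝ} (h : a ≤ b) : algebraMap ℝ A a ≤ algebraMap ℝ A b := by
  rw [Algebra.algebraMap_eq_smul_one, Algebra.algebraMap_eq_smul_one]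
  exact smul_le_smul_of_nonneg_right h zero_le_one

/-- the determinant of a product is at least the product of the determinants -/
theorem ld_prod (τ : A →L[ℂ] ℂ) (hτ : TrSt τ) (X Y : A) (x y : ℝ)
    (hX : ∀ δ : ℝ, 0 < δ → x ≤ ld τ (algebraMap ℝ A δ + star X * X))
    (hY : ∀ δ : ℝ, 0 < δ → y ≤ ld τ (algebraMap ℝ A δ + star Y * Y)) (δ : ℝ) (hδ : 0 < δ) :
    x + y ≤ ld τ (algebraMap ℝ A δ + star (X * Y) * (X * Y)) := by
  -- parameters
  set ε : ℝ := δ / 2 / (‖Y‖ ^ 2 + 1) with hε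
  have hε0 : 0 < ε := by positivity
  obtain ⟨s, hs, hsK⟩ := exists_sqrt _ (sp_add hε0 X)
  set K : A := algebraMap ℝ A ε + star X * X with hK
  set c : ℝ := δ / 2 / (‖K‖ + 1) with hc
  have hc0 : 0 < c := by positivity
  obtain ⟨t, ht, htY⟩ := exists_sqrt _ (sp_add hc0 (star Y))
  rw [star_star] at htY
  -- step 1
  have h1 : algebraMap ℝ A (δ / 2) + star ((s : A) * Y) * ((s : A) * Y)
      ≤ algebraMap ℝ A δ + star (X * Y) * (X * Y) := by
    have e1 : star ((s : A) * Y) * ((s : A) * Y) = ε • (star Y * Y) + star (X * Y) * (X * Y) := by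
      rw [star_mul, hs.star_eq]
      calc star Y * (s : A) * ((s : A) * Y) = star Y * ((s : A) * (s : A)) * Y := by
            simp only [mul_assoc]
        _ = ε • (star Y * Y) + star Y * (star X * X) * Y := by
            rw [hsK, hK, mul_add, add_mul, Algebra.algebraMap_eq_smul_one]
            simp only [mul_smul_comm, smul_mul_assoc, mul_one]
        _ = _ := by rw [star_mul]; simp only [mul_assoc]
    have e2 : star Y * Y ≤ algebraMap ℝ A (‖Y‖ ^ 2) := CStarAlgebra.star_mul_le_algebraMap_norm_sq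
    have e3 : ε • (star Y * Y) ≤ algebraMap ℝ A (δ / 2) := by
      calc ε • (star Y * Y) ≤ ε • algebraMap ℝ A (‖Y‖ ^ 2) := smul_le_smul_of_nonneg_left e2 hε0.le
        _ = algebraMap ℝ A (ε * ‖Y‖ ^ 2) := by
            rw [Algebra.algebraMap_eq_smul_one, Algebra.algebraMap_eq_smul_one, smul_smul]
        _ ≤ algebraMap ℝ A (δ / 2) := by
            refine algebraMap_mono ?_
            rw [hε, div_mul_eq_mul_div, div_le_iff₀ (by positivity)]
            have := sq_nonneg ‖Y‖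
            nlinarith
    rw [e1, ← add_assoc]
    refine add_le_add_left ?_ _
    calc algebraMap ℝ A (δ / 2) + ε • (star Y * Y)
        ≤ algebraMap ℝ A (δ / 2) + algebraMap ℝ A (δ / 2) := add_le_add_right e3 _
      _ = algebraMap ℝ A δ := by rw [← map_add]; congr 1; ring
  have h2 := ld_mono τ hτ (sp_add (half_pos hδ) ((s : A) * Y)) h1
  rw [ld_comm τ hτ _ _ (half_pos hδ)] at h2
  -- step 2
  have h3 : star ((t : A) * (s : A)) * ((t : A) * (s : A))
      ≤ algebraMap ℝ A (δ / 2) + (s : A) * Y * star ((s : A) * Y) := by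
    have e1 : star ((t : A) * (s : A)) * ((t : A) * (s : A)) = c • K + (s : A) * Y * star ((s : A) * Y) := by
      rw [star_mul, star_mul, hs.star_eq, ht.star_eq]
      calc (s : A) * (t : A) * ((t : A) * (s : A)) = (s : A) * ((t : A) * (t : A)) * (s : A) := by
            simp only [mul_assoc]
        _ = c • ((s : A) * (s : A)) + (s : A) * (Y * star Y) * (s : A) := by
            rw [htY, mul_add, add_mul, Algebra.algebraMap_eq_smul_one]
            simp only [mul_smul_comm, smul_mul_assoc, mul_one]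
        _ = _ := by rw [hsK]; simp only [mul_assoc]
    rw [e1]
    refine add_le_add_left ?_ _
    have e2 : K ≤ algebraMap ℝ A ‖K‖ := IsSelfAdjoint.le_algebraMap_norm_self (sp_add hε0 X).nonneg.isSelfAdjoint
    calc c • K ≤ c • algebraMap ℝ A ‖K‖ := smul_le_smul_of_nonneg_left e2 hc0.le
      _ = algebraMap ℝ A (c * ‖K‖) := by
          rw [Algebra.algebraMap_eq_smul_one, Algebra.algebraMap_eq_smul_one, smul_smul]
      _ ≤ algebraMap ℝ A (δ / 2) := by
          refine algebraMap_mono ?_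
          rw [hc, div_mul_eq_mul_div, div_le_iff₀ (by positivity)]
          have := norm_nonneg K
          nlinarith
  have h4 := ld_mono τ hτ (sp_star_mul (t * s)) h3
  have h5 := ld_mul τ hτ (t : A) (s : A) t.isUnit s.isUnit
  rw [hs.star_eq, ht.star_eq, hsK, htY] at h5
  have h6 := hX ε hε0
  have h7 := hY c hc0
  rw [ld_comm τ hτ _ _ hc0] at h7
  rw [Units.val_mul] at h4
  linarith

theorem ld_pow (τ : A →L[ℂ] ℂ) (hτ : TrSt τ) (X : A) (x : ℝ)
    (hX : ∀ δ : ℝ, 0 < δ → x ≤ ld τ (algebraMap ℝ A δ + star X * X)) (k : ℕ) :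
    ∀ δ : ℝ, 0 < δ → k * x ≤ ld τ (algebraMap ℝ A δ + star (X ^ k) * X ^ k) := by
  induction k with
  | zero =>
    intro δ hδ
    rw [pow_zero, star_one, one_mul, Nat.cast_zero, zero_mul, ← ld_one τ]
    refine ld_mono τ hτ (by
      have := sp_star_mul (1 : Aˣ)
      simpa using this) ?_
    have : (0 : A) ≤ algebraMap ℝ A δ := by
      rw [Algebra.algebraMap_eq_smul_one]
      exact smul_nonneg hδ.le zero_le_one
    exact le_add_of_nonneg_left this
  | succ k ih =>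
    intro δ hδ
    have := ld_prod τ hτ (X ^ k) X (k * x) x ih hX δ hδ
    rw [pow_succ]
    push_cast
    linarith

end prod

end Pool.Agent.J6H88.JO
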