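import Pool.Agent.J6H88.JO.Core
import Pool.Agent.W611.RO.Exist

/-!
# Covariant fields on the space of square summable functions
-/

set_option autoImplicit false
open scoped ComplexConjugate InnerProductSpace Topology BoundedContinuousFunction
open Filter MeasureTheory

namespace Pool.Agent.J6H88.JO
open Pool.Agent.H712R5.BO Pool.Agent.W611.RO

section
variable {G Ω : Type} [Group G] [Countable G] [MeasurableSpace Ω] [MulAction G Ω]

/-- the final form for fields on `ℓ²(G)` -/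
theorem fin_field (P : Measure Ω) [IsProbabilityMeasure P] (herg : Erg G P) {r : G → G → Prop}
    (hr : ROrd r) (T : Ω → (L2 G →L[ℂ] L2 G)) (C : ℝ) (hC : ∀ ω, ‖T ω‖ ≤ C)
    (hmeas : ∀ (f : L2 G) (i : G), Measurable fun ω => (T ω f : G → ℂ) i)
    (hcov : ∀ (h : G) (ω : Ω) (f f' : L2 G), (∀ i, (f' : G → ℂ) i = (f : G → ℂ) (h * i)) →
      ∀ i, (T (h • ω) f : G → ℂ) (h * i) = (T ω f' : G → ℂ) i)
    (g₀ : G) (hpos : r 1 g₀)
    (hz : ∀ g ω, g ≠ g₀ → ¬ r g g₀ → (T ω (stb G g) : G → ℂ) 1 = 0)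
    (hne : ∀ᵐ ω ∂P, (T ω (stb G g₀) : G → ℂ) 1 ≠ 0)
    (hint : Integrable (fun ω => Real.log ‖(T ω (stb G g₀) : G → ℂ) 1‖) P) :
    ∀ᵐ ω ∂P, HasHyp (T ω) := by
  classical
  -- the left regular representation
  have hL' : ∀ h : G, ∃ U : unitary (L2 G →L[ℂ] L2 G), ∀ k,
      (U : L2 G →L[ℂ] L2 G) (stb G k) = stb G (h * k) := by
    intro h
    obtain ⟨U, hU⟩ := (Pool.Agent.W515.RO.t_UNI G (L2 G) (stb G) (Equiv.mulLeft h) (fun _ => 1)).1
      (by simp)
    refine ⟨U, fun k => ?_⟩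
    rw [hU k, one_smul]
    rfl
  choose L hLk using hL'
  have hL : Reg (stb G) L := hLk
  have hLf : ∀ (h : G) (f : L2 G) (i : G),
      (((L h : L2 G →L[ℂ] L2 G) f : L2 G) : G → ℂ) (h * i) = (f : G → ℂ) i := by
    intro h f i
    rw [← stb_coord, L_inner (stb G) hL, inv_mul_cancel_left, stb_coord]
  let A : Dis Ω →ᵇ (L2 G →L[ℂ] L2 G) :=
    BoundedContinuousFunction.ofNormedAddCommGroupDiscrete (α := Dis Ω) T C hC
  have hA : ∀ ω : Ω, (A : Dis Ω → (L2 G →L[ℂ] L2 G)) ω = T ω := fun ω => rfl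
  have hmem : A ∈ CF (Ω := Ω) (stb G) L := by
    rw [mem_CF]
    refine ⟨fun x y => ?_, fun h ω => ?_⟩
    · have h1 : ∀ ω : Ω, ⟪x, (A : Dis Ω → (L2 G →L[ℂ] L2 G)) ω y⟫_ℂ
          = ∑' k : G, ⟪x, stb G k⟫_ℂ * (T ω y : G → ℂ) k := by
        intro ω
        rw [hA, ← (stb G).tsum_inner_mul_inner]
        refine tsum_congr fun k => ?_
        rw [stb_coord]
      simp_rw [h1]
      exact Measurable.tsum fun k => (hmeas y k).const_mul _
    · rw [hA, hA]
      refine ContinuousLinearMap.ext fun f => lp.ext (funext fun j => ?_)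
      show (T (h • ω) ((L h : L2 G →L[ℂ] L2 G) f) : G → ℂ) j
        = (((L h : L2 G →L[ℂ] L2 G) (T ω f) : L2 G) : G → ℂ) j
      have h2 := hcov h ω ((L h : L2 G →L[ℂ] L2 G) f) f (fun i => (hLf h f i).symm) (h⁻¹ * j)
      have h3 := hLf h (T ω f) (h⁻¹ * j)
      rw [mul_inv_cancel_left] at h2 h3
      rw [h2, h3]
  set A' : CF (Ω := Ω) (stb G) L := ⟨A, hmem⟩ with hA'
  have hev : ∀ ω, ev (stb G) L ω A' = T ω := fun ω => rfl
  have hmain := lead P (stb G) herg L hL hr A' g₀ hpos (fun g ω h1 h2 => by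
      rw [hev, stb_coord]
      exact hz g ω h1 h2) (by
      filter_upwards [hne] with ω hω
      rw [hev, stb_coord]
      exact hω) (by
      refine hint.congr (Eventually.of_forall fun ω => ?_)
      show Real.log ‖(T ω (stb G g₀) : G → ℂ) 1‖ = Real.log ‖⟪stb G 1, ev (stb G) L ω A' (stb G g₀)⟫_ℂ‖
      rw [hev, stb_coord])
  filter_upwards [hmain] with ω hω
  rw [hev] at hω
  exact hω

end

end Pool.Agent.J6H88.JO
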