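import Pool.Agent.J6H88.JO.Pt
import Pool.Agent.W611.RO.Stms

/-!
# Operators from their columns, and the optimal extension of a basis vector
-/

set_option autoImplicit false
open scoped ComplexConjugate InnerProductSpace Topology BoundedContinuousFunction
open Filter MeasureTheory

namespace Pool.Agent.J6H88.JO

section op
variable {G H : Type} [NormedAddCommGroup H] [InnerProductSpace ℂ H] [CompleteSpace H]

theorem col_summable (b : HilbertBasis G ℂ H) (v : G → H) (C : ℝ) (hC : 0 ≤ C)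
    (h : ∀ (s : Finset G) (y : G → ℂ), ‖∑ k ∈ s, y k • v k‖ ^ 2 ≤ C * ∑ k ∈ s, ‖y k‖ ^ 2) (x : H) :
    Summable fun k => ⟪b k, x⟫_ℂ • v k := by
  have h1 : Summable fun k => ‖⟪b k, x⟫_ℂ‖ ^ 2 := b.orthonormal.inner_products_summable x
  rw [summable_iff_vanishing_norm] at h1 ⊢
  intro ε hε
  obtain ⟨s, hs⟩ := h1 (ε ^ 2 / (C + 1)) (by positivity)
  refine ⟨s, fun t ht => ?_⟩
  have h2 := hs t ht
  rw [Real.norm_eq_abs, abs_of_nonneg (Finset.sum_nonneg fun k _ => sq_nonneg _)] at h2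
  have h3 := h t (fun k => ⟪b k, x⟫_ℂ)
  have h4 : ‖∑ k ∈ t, ⟪b k, x⟫_ℂ • v k‖ ^ 2 < ε ^ 2 := by
    refine lt_of_le_of_lt h3 ?_
    rw [lt_div_iff₀ (by positivity)] at h2
    have h5 : 0 ≤ ∑ k ∈ t, ‖⟪b k, x⟫_ℂ‖ ^ 2 := Finset.sum_nonneg fun k _ => sq_nonneg _
    nlinarith
  exact lt_of_pow_lt_pow_left₀ 2 hε.le h4

theorem exists_op (b : HilbertBasis G ℂ H) (v : G → H) (C : ℝ) (hC : 0 ≤ C)
    (h : ∀ (s : Finset G) (y : G → ℂ), ‖∑ k ∈ s, y k • v k‖ ^ 2 ≤ C * ∑ k ∈ s, ‖y k‖ ^ 2) :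
    ∃ X : H →L[ℂ] H, ‖X‖ ≤ √C ∧ ∀ k, X (b k) = v k := by
  classical
  have hs := col_summable b v C hC h
  let X0 : H →ₗ[ℂ] H :=
    { toFun := fun x => ∑' k, ⟪b k, x⟫_ℂ • v k
      map_add' := by
        intro x y
        rw [← (hs x).tsum_add (hs y)]
        refine tsum_congr fun k => ?_
        rw [inner_add_right, add_smul]
      map_smul' := by
        intro c x
        rw [RingHom.id_apply, ← (hs x).tsum_const_smul c]
        refine tsum_congr fun k => ?_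
        rw [inner_smul_right, mul_smul] }
  have hb : ∀ x, ‖X0 x‖ ≤ √C * ‖x‖ := by
    intro x
    have h1 : Tendsto (fun s : Finset G => ‖∑ k ∈ s, ⟪b k, x⟫_ℂ • v k‖) atTop (𝓝 ‖X0 x‖) :=
      (hs x).hasSum.norm
    refine le_of_tendsto h1 (Eventually.of_forall fun s => ?_)
    have h2 := h s (fun k => ⟪b k, x⟫_ℂ)
    have h3 : ∑ k ∈ s, ‖⟪b k, x⟫_ℂ‖ ^ 2 ≤ ‖x‖ ^ 2 := b.orthonormal.sum_inner_products_le x
    refine abs_le_of_sq_le_sq' ?_ (by positivity) |>.2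
    rw [mul_pow, Real.sq_sqrt hC]
    exact h2.trans (mul_le_mul_of_nonneg_left h3 hC)
  refine ⟨X0.mkContinuous (√C) hb, LinearMap.mkContinuous_norm_le _ (Real.sqrt_nonneg _) _, fun l => ?_⟩
  show ∑' k, ⟪b k, b l⟫_ℂ • v k = v l
  rw [tsum_eq_single l]
  · rw [basis_inner, if_pos rfl, one_smul]
  · intro k hk
    rw [basis_inner, if_neg hk, zero_smul]

/-- the contraction `1 - K / R` -/
theorem contr (S : H →L[ℂ] H) (δ R : ℝ) (hR : R = δ + ‖S‖ ^ 2) :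
    ‖(R : ℝ) • (1 : H →L[ℂ] H) - (algebraMap ℝ (H →L[ℂ] H) δ + star S * S)‖ ≤ ‖S‖ ^ 2 := by
  have e1 : (R : ℝ) • (1 : H →L[ℂ] H) - (algebraMap ℝ (H →L[ℂ] H) δ + star S * S)
      = algebraMap ℝ (H →L[ℂ] H) (‖S‖ ^ 2) - star S * S := by
    rw [hR, Algebra.algebraMap_eq_smul_one, Algebra.algebraMap_eq_smul_one, add_smul]
    abel
  rw [e1]
  have h1 : star S * S ≤ algebraMap ℝ (H →L[ℂ] H) (‖S‖ ^ 2) :=
    CStarAlgebra.star_mul_le_algebraMap_norm_sq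
  have h2 : 0 ≤ algebraMap ℝ (H →L[ℂ] H) (‖S‖ ^ 2) - star S * S := sub_nonneg.2 h1
  rw [CStarAlgebra.norm_le_iff_le_algebraMap _ (sq_nonneg _) h2]
  exact sub_le_self _ (star_mul_self_nonneg S)

/-- measurable choice of the optimal extension -/
theorem exists_opt [Countable G] {Ω : Type} [MeasurableSpace Ω] (b : HilbertBasis G ℂ H)
    (S : Ω → (H →L[ℂ] H)) (δ M : ℝ) (hδ : 0 < δ) (hM : ∀ ω, ‖S ω‖ ≤ M)
    (K : Ω → (H →L[ℂ] H)) (hK : ∀ ω, K ω = algebraMap ℝ (H →L[ℂ] H) δ + star (S ω) * S ω)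
    (hKm : ∀ x y : H, Measurable fun ω => ⟪x, K ω y⟫_ℂ) (Q : H →L[ℂ] H) (hQsa : IsSelfAdjoint Q)
    (hQ2 : ∀ x, Q (Q x) = Q x) (hQn : ‖Q‖ ≤ 1) (e : H) :
    ∃ ξ : Ω → H, (∀ x : H, Measurable fun ω => ⟪x, ξ ω⟫_ℂ) ∧
      ∀ ω, Q (ξ ω - e) = ξ ω - e ∧ Q (K ω (ξ ω)) = 0 := by
  set R : ℝ := δ + M ^ 2 with hR
  have hR0 : 0 < R := by positivity
  have hMr : ∀ ω, ‖(R : ℝ) • (1 : H →L[ℂ] H) - K ω‖ ≤ M ^ 2 := by
    intro ω
    have hn := norm_nonneg (S ω)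
    have hsq : ‖S ω‖ ^ 2 ≤ M ^ 2 := pow_le_pow_left₀ hn (hM ω) 2
    have e1 : (R : ℝ) • (1 : H →L[ℂ] H) - K ω
        = ((δ + ‖S ω‖ ^ 2 : ℝ) • (1 : H →L[ℂ] H)
          - (algebraMap ℝ (H →L[ℂ] H) δ + star (S ω) * S ω)) + (M ^ 2 - ‖S ω‖ ^ 2 : ℝ) • 1 := by
      rw [hK, hR]
      have : (δ + M ^ 2 : ℝ) • (1 : H →L[ℂ] H)
          = (δ + ‖S ω‖ ^ 2 : ℝ) • (1 : H →L[ℂ] H) + (M ^ 2 - ‖S ω‖ ^ 2 : ℝ) • 1 := by
        rw [← add_smul]
        congr 1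
        ring
      rw [this]
      abel
    rw [e1]
    refine (norm_add_le _ _).trans ?_
    have h1 := contr (S ω) δ _ rfl
    have h2 : ‖(M ^ 2 - ‖S ω‖ ^ 2 : ℝ) • (1 : H →L[ℂ] H)‖ ≤ M ^ 2 - ‖S ω‖ ^ 2 := by
      rw [norm_smul, Real.norm_eq_abs, abs_of_nonneg (by linarith)]
      have h3 : ‖(1 : H →L[ℂ] H)‖ ≤ 1 := ContinuousLinearMap.norm_id_le
      nlinarith
    linarith
  set r : ℝ := M ^ 2 / R with hr
  have hr1 : r < 1 := by
    rw [hr, div_lt_one hR0]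
    linarith
  have hr0 : 0 ≤ r := by positivity
  -- the iteration
  let ξn : ℕ → Ω → H := fun n => Nat.rec (fun _ => e) (fun _ f ω => f ω - (R⁻¹ : ℝ) • Q (K ω (f ω))) n
  have h0 : ∀ ω, ξn 0 ω = e := fun ω => rfl
  have hs : ∀ n ω, ξn (n + 1) ω = ξn n ω - (R⁻¹ : ℝ) • Q (K ω (ξn n ω)) := fun n ω => rfl
  have hm : ∀ n (x : H), Measurable fun ω => ⟪x, ξn n ω⟫_ℂ := by
    intro n
    induction n with
    | zero =>
      intro x
      show Measurable fun _ : Ω => ⟪x, e⟫_ℂ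
      exact measurable_const
    | succ n ih =>
      intro x
      have e1 : ∀ ω, ⟪x, ξn (n + 1) ω⟫_ℂ = ⟪x, ξn n ω⟫_ℂ
          - (R⁻¹ : ℂ) * ∑' k, ⟪Q x, K ω (b k)⟫_ℂ * ⟪b k, ξn n ω⟫_ℂ := by
        intro ω
        rw [hs, inner_sub_right, ← Complex.coe_smul, inner_smul_right]
        congr 1
        push_cast
        congr 1
        have h5 : ⟪x, Q (K ω (ξn n ω))⟫_ℂ = ⟪Q x, K ω (ξn n ω)⟫_ℂ := by
          rw [← ContinuousLinearMap.adjoint_inner_left, ← ContinuousLinearMap.star_eq_adjoint,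
            hQsa.star_eq]
        have h6 : ⟪Q x, K ω (ξn n ω)⟫_ℂ = ⟪ContinuousLinearMap.adjoint (K ω) (Q x), ξn n ω⟫_ℂ := by
          rw [ContinuousLinearMap.adjoint_inner_left]
        rw [h5, h6, ← b.tsum_inner_mul_inner]
        refine tsum_congr fun k => ?_
        rw [ContinuousLinearMap.adjoint_inner_left]
      simp_rw [e1]
      refine (ih x).sub (Measurable.const_mul ?_ _)
      exact Measurable.tsum fun k => (hKm (Q x) (b k)).mul (ih (b k))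
  have hd : ∀ n ω, Q (ξn (n + 1) ω - ξn n ω) = ξn (n + 1) ω - ξn n ω ∧
      ‖ξn (n + 1) ω - ξn n ω‖ ≤ r ^ n * ‖(R⁻¹ : ℝ) • Q (K ω e)‖ := by
    intro n ω
    induction n with
    | zero =>
      rw [hs, h0]
      have : e - (R⁻¹ : ℝ) • Q (K ω e) - e = -((R⁻¹ : ℝ) • Q (K ω e)) := by abel
      rw [this]
      refine ⟨?_, ?_⟩
      · rw [map_neg, ContinuousLinearMap.map_smul_of_tower, hQ2]
      · rw [norm_neg, pow_zero, one_mul]
    | succ n ih =>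
      obtain ⟨ih1, ih2⟩ := ih
      set d := ξn (n + 1) ω - ξn n ω with hdd
      have e1 : ξn (n + 1 + 1) ω - ξn (n + 1) ω = (R⁻¹ : ℝ) • Q (((R : ℝ) • (1 : H →L[ℂ] H) - K ω) d) := by
        rw [hs (n + 1) ω]
        have e2 : ξn (n + 1) ω - (R⁻¹ : ℝ) • Q (K ω (ξn (n + 1) ω)) - ξn (n + 1) ω
            = -((R⁻¹ : ℝ) • Q (K ω (ξn (n + 1) ω))) := by abel
        have e3 : -((R⁻¹ : ℝ) • Q (K ω (ξn n ω))) = d := by
          rw [hdd, hs n ω]
          abel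
        have e4 : ξn (n + 1) ω = ξn n ω + d := by rw [hdd]; abel
        rw [e2, e4, map_add, map_add, smul_add, neg_add, e3]
        clear_value d
        have e5 : ((R : ℝ) • (1 : H →L[ℂ] H) - K ω) d = (R : ℝ) • d - K ω d := rfl
        have e6 : Q ((R : ℝ) • d - K ω d) = (R : ℝ) • d - Q (K ω d) := by
          rw [Q.map_sub, ContinuousLinearMap.map_smul_of_tower, ih1]
        rw [e5, e6, smul_sub, smul_smul, inv_mul_cancel₀ hR0.ne', one_smul]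
        abel
      rw [e1]
      refine ⟨?_, ?_⟩
      · rw [ContinuousLinearMap.map_smul_of_tower, hQ2]
      · rw [norm_smul, Real.norm_eq_abs, abs_of_pos (inv_pos.2 hR0)]
        have h6 : ‖Q (((R : ℝ) • (1 : H →L[ℂ] H) - K ω) d)‖ ≤ 1 * (M ^ 2 * ‖d‖) := by
          refine (Q.le_opNorm _).trans ?_
          refine mul_le_mul hQn ?_ (norm_nonneg _) zero_le_one
          exact ((((R : ℝ) • (1 : H →L[ℂ] H) - K ω)).le_opNorm d).trans
            (mul_le_mul_of_nonneg_right (hMr ω) (norm_nonneg _))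
        calc R⁻¹ * ‖Q (((R : ℝ) • (1 : H →L[ℂ] H) - K ω) d)‖
            ≤ R⁻¹ * (1 * (M ^ 2 * ‖d‖)) := mul_le_mul_of_nonneg_left h6 (inv_pos.2 hR0).le
          _ = r * ‖d‖ := by rw [hr]; ring
          _ ≤ r * (r ^ n * ‖(R⁻¹ : ℝ) • Q (K ω e)‖) := mul_le_mul_of_nonneg_left ih2 hr0
          _ = _ := by ring
  have hcau : ∀ ω, CauchySeq fun n => ξn n ω := by
    intro ω
    refine cauchySeq_of_le_geometric r (‖(R⁻¹ : ℝ) • Q (K ω e)‖) hr1 fun n => ?_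
    rw [dist_eq_norm, ← norm_neg, neg_sub]
    refine (hd n ω).2.trans (le_of_eq ?_)
    ring
  choose ξ hξ using fun ω => cauchySeq_tendsto_of_complete (hcau ω)
  refine ⟨ξ, fun x => ?_, fun ω => ⟨?_, ?_⟩⟩
  · refine measurable_of_tendsto_metrizable (fun n => hm n x) ?_
    rw [tendsto_pi_nhds]
    intro ω
    have hc : Continuous fun z : H => ⟪x, z⟫_ℂ := by fun_prop
    exact (hc.tendsto _).comp (hξ ω)
  · have h1 : ∀ n, Q (ξn n ω - e) = ξn n ω - e := by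
      intro n
      induction n with
      | zero => rw [h0]; simp
      | succ n ih =>
        have e1 : ξn (n + 1) ω - e = (ξn (n + 1) ω - ξn n ω) + (ξn n ω - e) := by abel
        rw [e1, map_add, ih, (hd n ω).1]
    have h2 : Tendsto (fun n => ξn n ω - e) atTop (𝓝 (ξ ω - e)) := (hξ ω).sub_const e
    have h3 := (Q.continuous.tendsto _).comp h2
    refine tendsto_nhds_unique h3 ?_
    refine h2.congr fun n => ?_
    exact (h1 n).symm
  · have h1 : Tendsto (fun n => ξn (n + 1) ω - ξn n ω) atTop (𝓝 (ξ ω - ξ ω)) :=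
      ((tendsto_add_atTop_iff_nat 1).2 (hξ ω)).sub (hξ ω)
    have h2 : Tendsto (fun n => (R⁻¹ : ℝ) • Q (K ω (ξn n ω))) atTop (𝓝 ((R⁻¹ : ℝ) • Q (K ω (ξ ω)))) := by
      refine Tendsto.const_smul ?_ _
      exact ((Q.continuous.comp (K ω).continuous).tendsto _).comp (hξ ω)
    have h3 : Tendsto (fun n => (R⁻¹ : ℝ) • Q (K ω (ξn n ω))) atTop (𝓝 (-(ξ ω - ξ ω))) := by
      refine h1.neg.congr fun n => ?_
      rw [hs]
      abel
    have h4 := tendsto_nhds_unique h2 h3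
    rw [sub_self, neg_zero] at h4
    exact (smul_eq_zero.1 h4).resolve_left (inv_ne_zero hR0.ne')

end op

end Pool.Agent.J6H88.JO
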