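import Pool.Agent.J6H88.JO.Alg
import Pool.Agent.J6H88.JO.Op
import Pool.Agent.W515.RO.Uni
import Pool.Agent.W883.RO.TR
import Pool.Agent.W253.RO.MainB
import Pool.Agent.W493.RO.Lead

/-!
# The triangular field of optimal extensions
-/

set_option autoImplicit false
open scoped ComplexConjugate InnerProductSpace Topology BoundedContinuousFunction
open Filter MeasureTheory

namespace Pool.Agent.J6H88.JO
open Pool.Agent.H712R5.BO Pool.Agent.W611.RO

section proj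
variable {G H : Type} [NormedAddCommGroup H] [InnerProductSpace ℂ H] [CompleteSpace H]

open Classical in
/-- the coordinate projections -/
theorem exists_proj (b : HilbertBasis G ℂ H) (p : G → Prop) :
    ∃ Q : H →L[ℂ] H, IsSelfAdjoint Q ∧ (∀ x, Q (Q x) = Q x) ∧ ‖Q‖ ≤ 1 ∧
      (∀ k, Q (b k) = (if p k then 1 else 0 : ℂ) • b k) ∧
      (∀ x m, ⟪b m, Q x⟫_ℂ = if p m then ⟪b m, x⟫_ℂ else 0) := by
  obtain ⟨Q, hQn, hQ⟩ := (Pool.Agent.W515.RO.t_UNI G H b (Equiv.refl G)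
    (fun k => if p k then 1 else 0)).2 1 zero_le_one (fun k => by split_ifs <;> simp)
  have hQ' : ∀ k, Q (b k) = (if p k then 1 else 0 : ℂ) • b k := hQ
  have hc : ∀ x m, ⟪b m, Q x⟫_ℂ = if p m then ⟪b m, x⟫_ℂ else 0 := by
    intro x m
    rw [← ContinuousLinearMap.adjoint_inner_left, ← b.tsum_inner_mul_inner, tsum_eq_single m]
    · rw [ContinuousLinearMap.adjoint_inner_left, hQ', inner_smul_right, basis_inner, if_pos rfl]
      split_ifs <;> simp
    · intro k hk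
      rw [ContinuousLinearMap.adjoint_inner_left, hQ', inner_smul_right, basis_inner,
        if_neg (Ne.symm hk), mul_zero, zero_mul]
  have hsa : IsSelfAdjoint Q := by
    rw [ContinuousLinearMap.isSelfAdjoint_iff']
    refine Pool.Agent.W253.RO.clm_ext b _ _ fun k => ?_
    have h1 : ∀ z : H, (∀ m, ⟪b m, z⟫_ℂ = 0) → z = 0 := fun z hz =>
      Pool.Agent.W253.RO.total b z fun r => by rw [← inner_conj_symm, hz r, map_zero]
    rw [← sub_eq_zero]
    refine h1 _ fun m => ?_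
    rw [inner_sub_right, ContinuousLinearMap.adjoint_inner_right, hQ', hQ', inner_smul_left,
      inner_smul_right, basis_inner]
    by_cases hmk : m = k
    · subst hmk
      split_ifs <;> simp
    · rw [if_neg hmk]
      simp
  refine ⟨Q, hsa, fun x => ?_, hQn, hQ', hc⟩
  have h2 : Q * Q = Q := by
    refine Pool.Agent.W253.RO.clm_ext b _ _ fun k => ?_
    show Q (Q (b k)) = Q (b k)
    rw [hQ', map_smul, hQ', smul_smul]
    split_ifs <;> simp
  exact congrArg (fun T : H →L[ℂ] H => T x) h2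

end proj

section fld
variable {G Ω H : Type} [Group G] [Countable G] [MeasurableSpace Ω] [MulAction G Ω]
  [NormedAddCommGroup H] [InnerProductSpace ℂ H] [CompleteSpace H]

omit [Countable G] in
theorem L_inner (b : HilbertBasis G ℂ H) {L : G → unitary (H →L[ℂ] H)} (hL : Reg b L) (k m : G)
    (z : H) : ⟪b m, (L k : H →L[ℂ] H) z⟫_ℂ = ⟪b (k⁻¹ * m), z⟫_ℂ := by
  have h1 : b m = (L k : H →L[ℂ] H) (b (k⁻¹ * m)) := by rw [hL k, mul_inv_cancel_left]
  rw [h1, ← ContinuousLinearMap.adjoint_inner_left, ← ContinuousLinearMap.star_eq_adjoint]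
  have e2 : star (L k : H →L[ℂ] H) * (L k : H →L[ℂ] H) = 1 := (Unitary.mem_iff.mp (L k).2).1
  have e3 : star (L k : H →L[ℂ] H) ((L k : H →L[ℂ] H) (b (k⁻¹ * m))) = b (k⁻¹ * m) :=
    congrArg (fun T : H →L[ℂ] H => T (b (k⁻¹ * m))) e2
  rw [e3]

omit [Countable G] in
theorem L_mul (b : HilbertBasis G ℂ H) {L : G → unitary (H →L[ℂ] H)} (hL : Reg b L) (g k : G)
    (z : H) : (L (g * k) : H →L[ℂ] H) z = (L g : H →L[ℂ] H) ((L k : H →L[ℂ] H) z) := by
  have : (L (g * k) : H →L[ℂ] H) = (L g : H →L[ℂ] H) * (L k : H →L[ℂ] H) := by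
    refine Pool.Agent.W253.RO.clm_ext b _ _ fun m => ?_
    show (L (g * k) : H →L[ℂ] H) (b m) = (L g : H →L[ℂ] H) ((L k : H →L[ℂ] H) (b m))
    rw [hL, hL, hL, mul_assoc]
  rw [this]
  rfl

/-- fields from vector fields -/
theorem exists_field (b : HilbertBasis G ℂ H) (L : G → unitary (H →L[ℂ] H)) (hL : Reg b L)
    (hmeas : ∀ h : G, Measurable (fun ω : Ω => h • ω)) (ξ : Ω → H)
    (hξ : ∀ x : H, Measurable fun ω => ⟪x, ξ ω⟫_ℂ) (C : ℝ) (X : Ω → (H →L[ℂ] H))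
    (hXn : ∀ ω, ‖X ω‖ ≤ C) (hX : ∀ ω k, X ω (b k) = (L k : H →L[ℂ] H) (ξ (k⁻¹ • ω))) :
    ∃ V : CF (Ω := Ω) b L, ∀ ω, ev b L ω V = X ω := by
  let A : Dis Ω →ᵇ (H →L[ℂ] H) :=
    BoundedContinuousFunction.ofNormedAddCommGroupDiscrete (α := Dis Ω) X C hXn
  have hA : ∀ ω : Ω, (A : Dis Ω → (H →L[ℂ] H)) ω = X ω := fun ω => rfl
  have hmem : A ∈ CF (Ω := Ω) b L := by
    rw [mem_CF]
    refine ⟨?_, ?_⟩
    · intro x y
      have h1 : ∀ ω : Ω, ⟪x, (A : Dis Ω → (H →L[ℂ] H)) ω y⟫_ℂ =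
          ∑' k : G, b.repr y k * ⟪ContinuousLinearMap.adjoint (L k : H →L[ℂ] H) x, ξ (k⁻¹ • ω)⟫_ℂ := by
        intro ω
        rw [hA]
        have h2 := (b.hasSum_repr y).mapL (X ω)
        have h3 := h2.mapL (innerSL ℂ x)
        have h4 := h3.tsum_eq
        simp only [innerSL_apply_apply] at h4
        rw [← h4]
        refine tsum_congr fun k => ?_
        rw [map_smul, hX, inner_smul_right, ContinuousLinearMap.adjoint_inner_left]
      simp_rw [h1]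
      refine Measurable.tsum fun k => ?_
      exact ((hξ _).comp (hmeas k⁻¹)).const_mul _
    · intro h ω
      rw [hA, hA]
      refine Pool.Agent.W253.RO.clm_ext b _ _ fun k => ?_
      change X (h • ω) ((L h : H →L[ℂ] H) (b k)) = (L h : H →L[ℂ] H) (X ω (b k))
      rw [hL h k, hX, hX, ← L_mul b hL]
      congr 2
      rw [smul_smul]
      congr 1
      group
  exact ⟨⟨A, hmem⟩, fun ω => rfl⟩

theorem ev_alg (b : HilbertBasis G ℂ H) (L : G → unitary (H →L[ℂ] H)) (ω : Ω)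
    (S : CF (Ω := Ω) b L) (δ : ℝ) :
    ev b L ω (algebraMap ℝ (CF (Ω := Ω) b L) δ + star S * S) =
      algebraMap ℝ (H →L[ℂ] H) δ + star (ev b L ω S) * ev b L ω S := by
  rw [map_add, map_mul, map_star]
  have h1 : ev b L ω (algebraMap ℝ (CF (Ω := Ω) b L) δ) = algebraMap ℝ (H →L[ℂ] H) δ := by
    rw [Algebra.algebraMap_eq_smul_one, Algebra.algebraMap_eq_smul_one]
    rfl
  rw [h1]

theorem K_inner (S : H →L[ℂ] H) (δ : ℝ) (x : H) :
    ⟪x, (algebraMap ℝ (H →L[ℂ] H) δ + star S * S) x⟫_ℂ = ((δ * ‖x‖ ^ 2 + ‖S x‖ ^ 2 : ℝ) : ℂ) := by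
  have e1 : (algebraMap ℝ (H →L[ℂ] H) δ + star S * S) x
      = (δ : ℂ) • x + ContinuousLinearMap.adjoint S (S x) := by
    rw [_root_.add_apply, Algebra.algebraMap_eq_smul_one]
    rfl
  rw [e1, inner_add_right, inner_smul_right, ContinuousLinearMap.adjoint_inner_right,
    inner_self_eq_norm_sq_to_K, inner_self_eq_norm_sq_to_K]
  push_cast
  rfl

theorem K_sa (S : H →L[ℂ] H) (δ : ℝ) : IsSelfAdjoint (algebraMap ℝ (H →L[ℂ] H) δ + star S * S) := by
  refine IsSelfAdjoint.add ?_ (IsSelfAdjoint.star_mul_self S)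
  exact IsSelfAdjoint.algebraMap _ (IsSelfAdjoint.all δ)

omit [Countable G] in
/-- upper bound for the optimal extension -/
theorem ext_upper {lt : G → G → Prop} (hl : LOrd lt) (b : HilbertBasis G ℂ H) (S : H →L[ℂ] H)
    (δ M : ℝ) (hδ : 0 < δ) (hM : ‖S‖ ≤ M) (v : G → H)
    (hv : IsExt lt b (algebraMap ℝ (H →L[ℂ] H) δ + star S * S) v) (s : Finset G) (y : G → ℂ) :
    δ * ‖∑ k ∈ s, y k • v k‖ ^ 2 + ‖S (∑ k ∈ s, y k • v k)‖ ^ 2
      ≤ (δ + M ^ 2) * ∑ k ∈ s, ‖y k‖ ^ 2 := by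
  have h := ext_bound hl hv (K_sa S δ) (fun x => by
    rw [K_inner, Complex.ofReal_re]
    positivity) (δ + M ^ 2) (fun x => by
    rw [K_inner, Complex.ofReal_re]
    have h1 : ‖S x‖ ≤ M * ‖x‖ := (S.le_opNorm x).trans
      (mul_le_mul_of_nonneg_right hM (norm_nonneg _))
    have h2 : ‖S x‖ ^ 2 ≤ (M * ‖x‖) ^ 2 := pow_le_pow_left₀ (norm_nonneg _) h1 2
    rw [mul_pow] at h2
    nlinarith) s y
  rwa [K_inner, Complex.ofReal_re] at h

omit [Countable G] in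
theorem ext_upper' {lt : G → G → Prop} (hl : LOrd lt) (b : HilbertBasis G ℂ H) (S : H →L[ℂ] H)
    (δ M : ℝ) (hδ : 0 < δ) (hM : ‖S‖ ≤ M) (v : G → H)
    (hv : IsExt lt b (algebraMap ℝ (H →L[ℂ] H) δ + star S * S) v) (s : Finset G) (y : G → ℂ) :
    δ * ‖∑ k ∈ s, y k • v k‖ ^ 2 + ‖S (∑ k ∈ s, y k • v k)‖ ^ 2
      ≤ (δ + M ^ 2) * ∑ k ∈ s, ‖y k‖ ^ 2 := ext_upper hl b S δ M hδ hM v hv s y

/-- existence of the triangular field -/
theorem exists_V {lt : G → G → Prop} (hl : LOrd lt) (b : HilbertBasis G ℂ H)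
    (L : G → unitary (H →L[ℂ] H)) (hL : Reg b L) (hmeas : ∀ h : G, Measurable (fun ω : Ω => h • ω))
    (S : CF (Ω := Ω) b L) (δ : ℝ) (hδ : 0 < δ) :
    ∃ V : CF (Ω := Ω) b L, ∀ ω, IsExt lt b
      (algebraMap ℝ (H →L[ℂ] H) δ + star (ev b L ω S) * ev b L ω S) (fun k => ev b L ω V (b k)) := by
  classical
  obtain ⟨Q, hQsa, hQ2, hQn, hQb, hQc⟩ := exists_proj b (fun m => lt 1 m)
  obtain ⟨ξ, hξm, hξ⟩ := exists_opt b (fun ω => ev b L ω S) δ ‖S‖ hδ (fun ω => ev_norm b L ω S)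
    (fun ω => ev b L ω (algebraMap ℝ (CF (Ω := Ω) b L) δ + star S * S)) (fun ω => ev_alg b L ω S δ)
    (fun x y => ev_meas b L _ x y) Q hQsa hQ2 hQn (b 1)
  -- the columns
  have hext : ∀ ω, IsExt lt b (algebraMap ℝ (H →L[ℂ] H) δ + star (ev b L ω S) * ev b L ω S)
      (fun k => (L k : H →L[ℂ] H) (ξ (k⁻¹ • ω))) := by
    intro ω
    refine ⟨fun k m hm => ?_, fun k m hkm => ?_⟩
    · have e1 : b k = (L k : H →L[ℂ] H) (b 1) := by rw [hL k, mul_one]
      show ⟪b m, (L k : H →L[ℂ] H) (ξ (k⁻¹ • ω)) - b k⟫_ℂ = 0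
      rw [e1, ← map_sub, L_inner b hL]
      have h1 := (hξ (k⁻¹ • ω)).1
      rw [← h1, hQc, if_neg]
      intro h
      apply hm
      have := hl.left k _ _ h
      rwa [mul_one, mul_inv_cancel_left] at this
    · show ⟪b m, (algebraMap ℝ (H →L[ℂ] H) δ + star (ev b L ω S) * ev b L ω S)
        ((L k : H →L[ℂ] H) (ξ (k⁻¹ • ω)))⟫_ℂ = 0
      rw [← ev_alg]
      have hcov := ev_cov b L (algebraMap ℝ (CF (Ω := Ω) b L) δ + star S * S) k (k⁻¹ • ω)
      rw [smul_inv_smul] at hcov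
      have h2 : ev b L ω (algebraMap ℝ (CF (Ω := Ω) b L) δ + star S * S)
          ((L k : H →L[ℂ] H) (ξ (k⁻¹ • ω)))
          = (L k : H →L[ℂ] H) (ev b L (k⁻¹ • ω) (algebraMap ℝ (CF (Ω := Ω) b L) δ + star S * S)
            (ξ (k⁻¹ • ω))) := congrArg (fun T : H →L[ℂ] H => T (ξ (k⁻¹ • ω))) hcov
      rw [h2, L_inner b hL]
      have h3 := (hξ (k⁻¹ • ω)).2
      have h4 := congrArg (fun z => ⟪b (k⁻¹ * m), z⟫_ℂ) h3
      simp only [inner_zero_right] at h4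
      rw [hQc, if_pos] at h4
      · exact h4
      · have := hl.left k⁻¹ _ _ hkm
        rwa [inv_mul_cancel] at this
  have hXe : ∀ ω, ∃ X : H →L[ℂ] H, ‖X‖ ≤ √((δ + ‖S‖ ^ 2) / δ) ∧
      ∀ k, X (b k) = (L k : H →L[ℂ] H) (ξ (k⁻¹ • ω)) := by
    intro ω
    refine exists_op b _ ((δ + ‖S‖ ^ 2) / δ) (by positivity) fun s y => ?_
    have h1 := ext_upper hl b (ev b L ω S) δ ‖S‖ hδ (ev_norm b L ω S) _ (hext ω) s y
    rw [div_mul_eq_mul_div, le_div_iff₀ hδ]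
    have h2 := sq_nonneg ‖ev b L ω S (∑ k ∈ s, y k • (L k : H →L[ℂ] H) (ξ (k⁻¹ • ω)))‖
    linarith
  choose X hXn hX using hXe
  obtain ⟨V, hV⟩ := exists_field b L hL hmeas ξ hξm _ X hXn hX
  refine ⟨V, fun ω => ?_⟩
  have : (fun k => ev b L ω V (b k)) = fun k => (L k : H →L[ℂ] H) (ξ (k⁻¹ • ω)) := by
    funext k
    rw [hV, hX]
  rw [this]
  exact hext ω

/-- extensionality -/
theorem cf_ext (b : HilbertBasis G ℂ H) (L : G → unitary (H →L[ℂ] H)) (A B : CF (Ω := Ω) b L)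
    (h : ∀ ω, ev b L ω A = ev b L ω B) : A = B := by
  apply Subtype.ext
  apply DFunLike.ext
  intro ω
  exact h ω

theorem ev_continuous (b : HilbertBasis G ℂ H) (L : G → unitary (H →L[ℂ] H)) (ω : Ω) :
    Continuous (ev b L ω) := by
  refine AddMonoidHomClass.continuous_of_bound (ev b L ω) 1 fun A => ?_
  rw [one_mul]
  exact ev_norm b L ω A

section ord
variable (b : HilbertBasis G ℂ H) (L : G → unitary (H →L[ℂ] H))
  [PartialOrder (CF (Ω := Ω) b L)] [StarOrderedRing (CF (Ω := Ω) b L)]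

/-- positivity of fields is pointwise -/
theorem cf_nonneg (A : CF (Ω := Ω) b L) (hsa : IsSelfAdjoint A)
    (h : ∀ ω x, 0 ≤ (⟪x, ev b L ω A x⟫_ℂ).re) : 0 ≤ A := by
  have hcont : ContinuousOn (fun x : ℝ => |x|) (spectrum ℝ A) := continuous_abs.continuousOn
  have key : cfc (fun x : ℝ => |x|) A = A := by
    refine cf_ext b L _ _ fun ω => ?_
    have hsa' : IsSelfAdjoint (ev b L ω A) := hsa.map _
    rw [StarAlgHom.map_cfc (ev b L ω) (fun x : ℝ => |x|) A hcont (ev_continuous b L ω) hsa hsa']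
    have hpos : (0 : H →L[ℂ] H) ≤ ev b L ω A := by
      rw [ContinuousLinearMap.nonneg_iff_isPositive, ContinuousLinearMap.isPositive_iff_complex]
      intro x
      have h1 := h ω x
      have h2 : ⟪ev b L ω A x, x⟫_ℂ = ⟪x, ev b L ω A x⟫_ℂ := by
        conv_lhs => rw [← ContinuousLinearMap.adjoint_inner_right,
          ← ContinuousLinearMap.star_eq_adjoint, hsa'.star_eq]
      have h3 : conj ⟪x, ev b L ω A x⟫_ℂ = ⟪x, ev b L ω A x⟫_ℂ := by
        rw [inner_conj_symm, h2]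
      rw [h2]
      refine ⟨?_, h1⟩
      exact Complex.conj_eq_iff_re.1 h3
    conv_rhs => rw [← cfc_id' ℝ (ev b L ω A)]
    refine cfc_congr fun x hx => ?_
    exact abs_of_nonneg (spectrum_nonneg_of_nonneg hpos hx)
  rw [← key]
  exact cfc_nonneg fun x _ => abs_nonneg x

end ord

end fld

end Pool.Agent.J6H88.JO
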