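import Pool.Agent.J6H88.JO.Abs
import Pool.Agent.J6H88.JO.Fld

/-!
# Jensen's inequality for triangular covariant fields
-/

set_option autoImplicit false
open scoped ComplexConjugate InnerProductSpace Topology BoundedContinuousFunction
open Filter MeasureTheory

namespace Pool.Agent.J6H88.JO
open Pool.Agent.H712R5.BO Pool.Agent.W611.RO

section pt
variable {G H : Type} [Group G] [NormedAddCommGroup H] [InnerProductSpace ℂ H] [CompleteSpace H]
  {lt : G → G → Prop}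

omit [Group G] [CompleteSpace H] in
theorem psum (b : HilbertBasis G ℂ H) (x : H) :
    Tendsto (fun s : Finset G => ∑ k ∈ s, ⟪b k, x⟫_ℂ • b k) atTop (𝓝 x) := by
  have h := b.hasSum_repr x
  have : (fun k => b.repr x k • b k) = fun k => ⟪b k, x⟫_ℂ • b k := by
    funext k
    rw [b.repr_apply_apply]
  rw [this] at h
  exact h

theorem low_all (hl : LOrd lt) {b : HilbertBasis G ℂ H} {S S0 V : H →L[ℂ] H} {δ : ℝ} (hδ : 0 < δ)
    (hv : IsExt lt b (algebraMap ℝ (H →L[ℂ] H) δ + star S * S) (fun k => V (b k)))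
    (hS : ∀ k m, ¬ lt k m → ⟪b m, (S - S0) (b k)⟫_ℂ = 0)
    (hS0 : ∀ k m, lt k m ∨ lt m k → ⟪b m, S0 (b k)⟫_ℂ = 0) (x : H) :
    δ * ‖x‖ ^ 2 + ‖S0 x‖ ^ 2
      ≤ (⟪V x, (algebraMap ℝ (H →L[ℂ] H) δ + star S * S) (V x)⟫_ℂ).re := by
  set K : H →L[ℂ] H := algebraMap ℝ (H →L[ℂ] H) δ + star S * S with hK
  have hx := psum b x
  have hf1 : Continuous fun z : H => δ * ‖z‖ ^ 2 + ‖S0 z‖ ^ 2 := by fun_prop
  have hf2 : Continuous fun z : H => (⟪V z, K (V z)⟫_ℂ).re := by
    refine Complex.continuous_re.comp ?_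
    fun_prop
  refine le_of_tendsto_of_tendsto ((hf1.tendsto x).comp hx) ((hf2.tendsto x).comp hx)
    (Eventually.of_forall fun s => ?_)
  have h := low_fin hl hδ hv hS hS0 s (fun k => ⟪b k, x⟫_ℂ)
  have e1 : V (∑ k ∈ s, ⟪b k, x⟫_ℂ • b k) = ∑ k ∈ s, ⟪b k, x⟫_ℂ • V (b k) := by
    rw [map_sum]
    refine Finset.sum_congr rfl fun k _ => ?_
    rw [map_smul]
  simp only [Function.comp_apply]
  rw [e1]
  exact h

theorem up_all (hl : LOrd lt) {b : HilbertBasis G ℂ H} {S V : H →L[ℂ] H} {δ M : ℝ} (hδ : 0 < δ)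
    (hM : ‖S‖ ≤ M)
    (hv : IsExt lt b (algebraMap ℝ (H →L[ℂ] H) δ + star S * S) (fun k => V (b k))) (x : H) :
    (⟪V x, (algebraMap ℝ (H →L[ℂ] H) δ + star S * S) (V x)⟫_ℂ).re ≤ (δ + M ^ 2) * ‖x‖ ^ 2 := by
  set K : H →L[ℂ] H := algebraMap ℝ (H →L[ℂ] H) δ + star S * S with hK
  have hx := psum b x
  have hf1 : Continuous fun z : H => (δ + M ^ 2) * ‖z‖ ^ 2 := by fun_prop
  have hf2 : Continuous fun z : H => (⟪V z, K (V z)⟫_ℂ).re := by
    refine Complex.continuous_re.comp ?_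
    fun_prop
  refine le_of_tendsto_of_tendsto ((hf2.tendsto x).comp hx) ((hf1.tendsto x).comp hx)
    (Eventually.of_forall fun s => ?_)
  have h := ext_upper' hl b S δ M hδ hM _ hv s (fun k => ⟪b k, x⟫_ℂ)
  have e1 : V (∑ k ∈ s, ⟪b k, x⟫_ℂ • b k) = ∑ k ∈ s, ⟪b k, x⟫_ℂ • V (b k) := by
    rw [map_sum]
    refine Finset.sum_congr rfl fun k _ => ?_
    rw [map_smul]
  simp only [Function.comp_apply]
  rw [e1, norm_sum_sq, hK, K_inner, Complex.ofReal_re]
  exact h

/-- `V* K V` is block diagonal -/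
theorem blockdiag (hl : LOrd lt) {b : HilbertBasis G ℂ H} {K V : H →L[ℂ] H}
    (hK : IsSelfAdjoint K) (hv : IsExt lt b K (fun k => V (b k))) (k m : G)
    (h : lt k m ∨ lt m k) : ⟪b m, (star V * K * V) (b k)⟫_ℂ = 0 := by
  have e1 : ⟪b m, (star V * K * V) (b k)⟫_ℂ = ⟪V (b m), K (V (b k))⟫_ℂ := by
    show ⟪b m, star V (K (V (b k)))⟫_ℂ = _
    rw [ContinuousLinearMap.star_eq_adjoint, ContinuousLinearMap.adjoint_inner_right]
  rw [e1]
  rcases h with h | h
  · exact hv.orth' hl h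
  · rw [re_inner_self_adj hK, hv.orth' hl h, map_zero]

/-- the inverse of a block diagonal operator is block diagonal: the column of `1` -/
theorem inv_col (hl : LOrd lt) {b : HilbertBasis G ℂ H} (D E : H →L[ℂ] H) (hDE : D * E = 1)
    (hED : E * D = 1) (hD : ∀ k m, lt k m ∨ lt m k → ⟪b m, D (b k)⟫_ℂ = 0) (a : G) :
    Sp b (fun m => ¬ lt a m ∧ ¬ lt m a) (E (b a)) := by
  classical
  obtain ⟨Q, hQsa, hQ2, hQn, hQb, hQc⟩ := exists_proj b (fun m => ¬ lt a m ∧ ¬ lt m a)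
  have hclass : ∀ k m, ¬ (lt k m ∨ lt m k) →
      ((¬ lt a m ∧ ¬ lt m a) ↔ (¬ lt a k ∧ ¬ lt k a)) := by
    intro k m hkm
    have h1 : ∀ k m, ¬ (lt k m ∨ lt m k) → (¬ lt a m ∧ ¬ lt m a) → (¬ lt a k ∧ ¬ lt k a) := by
      intro k m hkm h
      refine ⟨fun h' => ?_, fun h' => ?_⟩
      · rcases hl.neg a m k h' with h2 | h2
        · exact h.1 h2
        · exact hkm (Or.inr h2)
      · rcases hl.neg k m a h' with h2 | h2
        · exact hkm (Or.inl h2)
        · exact h.2 h2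
    exact ⟨h1 k m hkm, h1 m k (fun h => hkm h.symm)⟩
  have hcomm : D * Q = Q * D := by
    refine Pool.Agent.W253.RO.clm_ext b _ _ fun k => ?_
    show D (Q (b k)) = Q (D (b k))
    rw [hQb, map_smul, ← sub_eq_zero]
    refine Pool.Agent.W253.RO.total b _ fun m => ?_
    rw [← inner_conj_symm, inner_sub_right, inner_smul_right, hQc]
    by_cases hkm : lt k m ∨ lt m k
    · rw [hD k m hkm]
      simp
    · by_cases hc : ¬ lt a k ∧ ¬ lt k a
      · rw [if_pos hc, if_pos ((hclass k m hkm).2 hc), one_mul, sub_self, map_zero]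
      · rw [if_neg hc, if_neg fun h => hc ((hclass k m hkm).1 h), zero_mul, sub_zero, map_zero]
  have hcE : E * Q = Q * E := by
    calc E * Q = E * Q * (D * E) := by rw [hDE, mul_one]
      _ = E * (D * Q) * E := by rw [hcomm]; simp only [mul_assoc]
      _ = (E * D) * Q * E := by simp only [mul_assoc]
      _ = Q * E := by rw [hED, one_mul]
  intro m hm
  have h1 : Q (b a) = b a := by
    rw [hQb, if_pos ⟨hl.irrefl a, hl.irrefl a⟩, one_smul]
  have h2 : E (b a) = Q (E (b a)) := by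
    conv_lhs => rw [← h1]
    exact congrArg (fun T : H →L[ℂ] H => T (b a)) hcE
  rw [h2, hQc, if_neg hm]

end pt

section main
variable {G Ω H : Type} [Group G] [Countable G] [MeasurableSpace Ω] [MulAction G Ω]
  [NormedAddCommGroup H] [InnerProductSpace ℂ H] [CompleteSpace H]

/-- **Jensen's inequality.** If `S - S₀` is strictly triangular and `S₀` is block diagonal for a left
invariant preorder, then `τ log (δ + |S₀|²) ≤ τ log (δ + |S|²)`. -/
theorem jensen (P : Measure Ω) [IsProbabilityMeasure P] (b : HilbertBasis G ℂ H)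
    (L : G → unitary (H →L[ℂ] H)) (hL : Reg b L)
    (hmp : ∀ g : G, MeasurePreserving (fun ω : Ω => g • ω) P P)
    {lt : G → G → Prop} (hl : LOrd lt) (S S0 : CF (Ω := Ω) b L)
    (hS : ∀ ω k m, ¬ lt k m → ⟪b m, (ev b L ω S - ev b L ω S0) (b k)⟫_ℂ = 0)
    (hS0 : ∀ ω k m, lt k m ∨ lt m k → ⟪b m, ev b L ω S0 (b k)⟫_ℂ = 0) (δ : ℝ) (hδ : 0 < δ) :
    ld (tau P b L) (algebraMap ℝ (CF (Ω := Ω) b L) δ + star S0 * S0)
      ≤ ld (tau P b L) (algebraMap ℝ (CF (Ω := Ω) b L) δ + star S * S) := by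
  let := CStarAlgebra.spectralOrder (CF (Ω := Ω) b L)
  have := CStarAlgebra.spectralOrderedRing (CF (Ω := Ω) b L)
  have hmeas : ∀ h : G, Measurable (fun ω : Ω => h • ω) := fun h => (hmp h).measurable
  have hτ : TrSt (tau P b L) := t_TR G Ω H P b L hL hmp
  set τ := tau P b L with hτdef
  set K : ℝ → CF (Ω := Ω) b L := fun δ => algebraMap ℝ (CF (Ω := Ω) b L) δ + star S * S with hK
  -- the data for one `δ`
  have pack : ∀ δ : ℝ, 0 < δ → ∃ (V : CF (Ω := Ω) b L) (s t : (CF (Ω := Ω) b L)ˣ),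
      IsSelfAdjoint (s : CF (Ω := Ω) b L) ∧ (s : CF (Ω := Ω) b L) * s = K δ ∧
      IsSelfAdjoint (t : CF (Ω := Ω) b L) ∧ (t : CF (Ω := Ω) b L) * t = star V * (K δ) * V ∧
      (∀ ω, IsExt lt b (algebraMap ℝ (H →L[ℂ] H) δ + star (ev b L ω S) * ev b L ω S)
        (fun k => ev b L ω V (b k))) ∧
      algebraMap ℝ (CF (Ω := Ω) b L) δ + star S0 * S0 ≤ star V * (K δ) * V ∧
      star V * (K δ) * V ≤ algebraMap ℝ (CF (Ω := Ω) b L) (δ + ‖S‖ ^ 2) := by
    intro δ hδ
    obtain ⟨V, hV⟩ := exists_V hl b L hL hmeas S δ hδ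
    obtain ⟨s, hs, hsK⟩ := exists_sqrt (K δ) (sp_add hδ S)
    have hKsa : IsSelfAdjoint (K δ) := (sp_add hδ S).nonneg.isSelfAdjoint
    have hDsa : IsSelfAdjoint (star V * (K δ) * V) := hKsa.conjugate' V
    have hDx : ∀ ω x, ⟪x, ev b L ω (star V * (K δ) * V) x⟫_ℂ
        = ⟪ev b L ω V x, (algebraMap ℝ (H →L[ℂ] H) δ + star (ev b L ω S) * ev b L ω S)
          (ev b L ω V x)⟫_ℂ := by
      intro ω x
      rw [← ev_alg, map_mul, map_mul, map_star]
      show ⟪x, star (ev b L ω V) (ev b L ω (K δ) (ev b L ω V x))⟫_ℂ = _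
      rw [ContinuousLinearMap.star_eq_adjoint, ContinuousLinearMap.adjoint_inner_right]
    have hlow : algebraMap ℝ (CF (Ω := Ω) b L) δ + star S0 * S0 ≤ star V * (K δ) * V := by
      rw [← sub_nonneg]
      refine cf_nonneg b L _ (hDsa.sub (sp_add hδ S0).nonneg.isSelfAdjoint) fun ω x => ?_
      have h := low_all hl hδ (hV ω) (hS ω) (hS0 ω) x
      rw [map_sub, ev_alg, _root_.sub_apply, inner_sub_right, Complex.sub_re, hDx, sub_nonneg,
        K_inner (ev b L ω S0), Complex.ofReal_re]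
      exact h
    have hup : star V * (K δ) * V ≤ algebraMap ℝ (CF (Ω := Ω) b L) (δ + ‖S‖ ^ 2) := by
      rw [← sub_nonneg]
      refine cf_nonneg b L _ ((IsSelfAdjoint.algebraMap _ (IsSelfAdjoint.all _)).sub hDsa)
        fun ω x => ?_
      have e1 : ev b L ω (algebraMap ℝ (CF (Ω := Ω) b L) (δ + ‖S‖ ^ 2)) x
          = ((δ + ‖S‖ ^ 2 : ℝ) : ℂ) • x := by
        have h1 : ev b L ω (algebraMap ℝ (CF (Ω := Ω) b L) (δ + ‖S‖ ^ 2))
            = algebraMap ℝ (H →L[ℂ] H) (δ + ‖S‖ ^ 2) := by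
          rw [Algebra.algebraMap_eq_smul_one, Algebra.algebraMap_eq_smul_one]
          rfl
        rw [h1, Algebra.algebraMap_eq_smul_one]
        rfl
      rw [map_sub, _root_.sub_apply, inner_sub_right, Complex.sub_re, hDx, e1, inner_smul_right,
        inner_self_eq_norm_sq_to_K, sub_nonneg]
      have h2 := up_all hl hδ (ev_norm b L ω S) (hV ω) x
      refine h2.trans (le_of_eq ?_)
      have e3 : ((δ + ‖S‖ ^ 2 : ℝ) : ℂ) * ((‖x‖ : ℂ)) ^ 2 = (((δ + ‖S‖ ^ 2) * ‖x‖ ^ 2 : ℝ) : ℂ) := by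
        push_cast
        ring
      have e4 : (((δ + ‖S‖ ^ 2 : ℝ) : ℂ) * ((‖x‖ : ℂ)) ^ 2).re = (δ + ‖S‖ ^ 2) * ‖x‖ ^ 2 := by
        rw [e3, Complex.ofReal_re]
      exact e4.symm
    have hDp : IsStrictlyPositive (star V * (K δ) * V) := (sp_add hδ S0).of_le hlow
    obtain ⟨t, ht, htD⟩ := exists_sqrt _ hDp
    exact ⟨V, s, t, hs, hsK, ht, htD, hV, hlow, hup⟩
  choose! V s t hs hsK ht htD hV hlow hup using pack
  set T : ℝ → ℝ := fun δ => (τ ((((s δ)⁻¹ : (CF (Ω := Ω) b L)ˣ) : CF (Ω := Ω) b L)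
    * (((s δ)⁻¹ : (CF (Ω := Ω) b L)ˣ) : CF (Ω := Ω) b L))).re with hTdef
  have hT0 : ∀ x, 0 < x → 0 ≤ T x := by
    intro x hx
    have h1 := hτ.pos (((s x)⁻¹ : (CF (Ω := Ω) b L)ˣ) : CF (Ω := Ω) b L)
    rw [inv_sa (s x) (hs x hx)] at h1
    exact h1
  have hvar : ∀ x y, 0 < x → 0 < y → ld τ (star (V x) * K x * V x)
      ≤ ld τ (star (V y) * K y * V y) - (y - x) * T y := by
    intro x y hx hy
    have hDp : IsStrictlyPositive (star (V x) * K x * V x) := (sp_add hx S0).of_le (hlow x hx)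
    rw [← htD y hy]
    refine var τ hτ S (V x) (V y) x y (s x) (s y) (t y) _ (hs x hx) (hs y hy) (ht y hy) (hsK x hx)
      (hsK y hy) (by rw [hsK x hx]) hDp (by rw [hsK y hy, htD y hy]) ?_
    -- the cross term
    rw [hτdef, tau_apply]
    refine integral_eq_zero_of_ae (Eventually.of_forall fun ω => ?_)
    set E : CF (Ω := Ω) b L := (((t y)⁻¹ : (CF (Ω := Ω) b L)ˣ) : CF (Ω := Ω) b L)
      * (((t y)⁻¹ : (CF (Ω := Ω) b L)ˣ) : CF (Ω := Ω) b L) with hE
    have hEs : star E = E := by rw [hE, star_mul, inv_sa (t y) (ht y hy)]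
    have hDE : (star (V y) * K y * V y) * E = 1 := by
      rw [← htD y hy, hE]
      calc (t y : CF (Ω := Ω) b L) * (t y) * ((((t y)⁻¹ : (CF (Ω := Ω) b L)ˣ) : CF (Ω := Ω) b L)
          * (((t y)⁻¹ : (CF (Ω := Ω) b L)ˣ) : CF (Ω := Ω) b L))
          = (t y : CF (Ω := Ω) b L) * ((t y : CF (Ω := Ω) b L)
            * (((t y)⁻¹ : (CF (Ω := Ω) b L)ˣ) : CF (Ω := Ω) b L))
            * (((t y)⁻¹ : (CF (Ω := Ω) b L)ˣ) : CF (Ω := Ω) b L) := by simp only [mul_assoc]
        _ = 1 := by rw [Units.mul_inv, mul_one, Units.mul_inv]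
    have hED : E * (star (V y) * K y * V y) = 1 := by
      rw [← htD y hy, hE]
      calc (((t y)⁻¹ : (CF (Ω := Ω) b L)ˣ) : CF (Ω := Ω) b L)
          * (((t y)⁻¹ : (CF (Ω := Ω) b L)ˣ) : CF (Ω := Ω) b L) * ((t y : CF (Ω := Ω) b L) * (t y))
          = (((t y)⁻¹ : (CF (Ω := Ω) b L)ˣ) : CF (Ω := Ω) b L)
            * ((((t y)⁻¹ : (CF (Ω := Ω) b L)ˣ) : CF (Ω := Ω) b L) * (t y : CF (Ω := Ω) b L))
            * (t y : CF (Ω := Ω) b L) := by simp only [mul_assoc]
        _ = 1 := by rw [Units.inv_mul, mul_one, Units.inv_mul]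
    -- pointwise
    have hEcol : Sp b (fun m => ¬ lt 1 m ∧ ¬ lt m 1) (ev b L ω E (b 1)) := by
      refine inv_col hl (ev b L ω (star (V y) * K y * V y)) (ev b L ω E)
        (by rw [← map_mul, hDE, map_one]) (by rw [← map_mul, hED, map_one]) ?_ 1
      intro k m hkm
      have e1 : ev b L ω (star (V y) * K y * V y)
          = star (ev b L ω (V y)) * (algebraMap ℝ (H →L[ℂ] H) y + star (ev b L ω S) * ev b L ω S)
            * ev b L ω (V y) := by
        rw [map_mul, map_mul, map_star, ← ev_alg]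
      rw [e1]
      exact blockdiag hl (K_sa _ _) (hV y hy ω) k m hkm
    have hNcol : Sp b (fun m => lt 1 m) (ev b L ω (V y - V x) (ev b L ω E (b 1))) := by
      refine hEcol.map _ fun m hm => ?_
      have h1 : Sp b (fun p => lt m p) (ev b L ω (V y - V x) (b m)) := by
        have e2 : ev b L ω (V y - V x) (b m)
            = (ev b L ω (V y) (b m) - b m) - (ev b L ω (V x) (b m) - b m) := by
          rw [map_sub, _root_.sub_apply]
          abel
        rw [e2]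
        exact ((hV y hy ω).sp m).sub ((hV x hx ω).sp m)
      refine h1.mono fun p hp => ?_
      rcases hl.neg m 1 p hp with h | h
      · exact absurd h hm.2
      · exact h
    show ⟪b 1, ev b L ω (E * (star (V y - V x) * (((s x : CF (Ω := Ω) b L) * (s x)) * V x))) (b 1)⟫_ℂ
      = 0
    rw [hsK x hx, map_mul, map_mul, map_mul, map_star]
    show ⟪b 1, ev b L ω E (star (ev b L ω (V y - V x)) (ev b L ω (K x) (ev b L ω (V x) (b 1))))⟫_ℂ = 0
    have e3 : ⟪b 1, ev b L ω E (star (ev b L ω (V y - V x)) (ev b L ω (K x) (ev b L ω (V x) (b 1))))⟫_ℂ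
        = ⟪ev b L ω (V y - V x) (ev b L ω E (b 1)), ev b L ω (K x) (ev b L ω (V x) (b 1))⟫_ℂ := by
      have h5 : IsSelfAdjoint (ev b L ω E) := by
        have : IsSelfAdjoint E := hEs
        exact this.map _
      rw [← ContinuousLinearMap.adjoint_inner_left, ← ContinuousLinearMap.star_eq_adjoint, h5.star_eq,
        ContinuousLinearMap.star_eq_adjoint, ContinuousLinearMap.adjoint_inner_right]
    rw [e3]
    refine inner_zero hNcol fun m hm => ?_
    have h6 := (hV x hx ω).orth 1 m hm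
    rw [← ev_alg] at h6
    exact h6
  -- concavity of `τ log K`
  have hconc : ∀ x y, 0 < x → 0 < y → ld τ (K y) ≤ ld τ (K x) + (y - x) * T x := by
    intro x y hx hy
    exact ld_concave τ hτ S hy (s x) (hs x hx) (hsK x hx)
  have hfin := halfline (fun x => ld τ (star (V x) * K x * V x) - ld τ (K x)) T hT0 (by
    intro x y hx hxy
    have hy : 0 < y := hx.trans_le hxy
    have h1 := hvar x y hx hy
    have h2 := hconc x y hx hy
    nlinarith) (‖S‖ ^ 2) (sq_nonneg _) (by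
    intro M hM
    have h1 : ld τ (star (V M) * K M * V M) ≤ Real.log (M + ‖S‖ ^ 2) := by
      rw [← ld_algebraMap τ hτ]
      exact ld_mono τ hτ ((sp_add hM S0).of_le (hlow M hM)) (hup M hM)
    have h2 : Real.log M ≤ ld τ (K M) := by
      rw [← ld_algebraMap τ hτ]
      refine ld_mono τ hτ ?_ ?_
      · have h3 := sp_add (A := CF (Ω := Ω) b L) hM 0
        rwa [star_zero, mul_zero, add_zero] at h3
      · exact le_add_of_nonneg_right (star_mul_self_nonneg S)
    linarith) δ hδ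
  have h7 := ld_mono τ hτ (sp_add hδ S0) (hlow δ hδ)
  linarith

end main

end Pool.Agent.J6H88.JO
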