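import Mathlib

/-!
# Left invariant preorders on a group and triangular operators

Pointwise part: Hilbert space with a basis indexed by the group.
-/

set_option autoImplicit false
open scoped ComplexConjugate InnerProductSpace Topology
open Filter

namespace Pool.Agent.J6H88.JO

/-- left invariant strict weak orders -/
structure LOrd {G : Type} [Group G] (lt : G → G → Prop) : Prop where
  irrefl : ∀ a, ¬ lt a a
  trans : ∀ a b c, lt a b → lt b c → lt a c
  neg : ∀ a b c, lt a c → lt a b ∨ lt b c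
  left : ∀ g a b, lt a b → lt (g * a) (g * b)

section blk
variable {G : Type} [Group G] {lt : G → G → Prop}

theorem LOrd.left_iff (hl : LOrd lt) (g a b : G) : lt (g * a) (g * b) ↔ lt a b := by
  refine ⟨fun h => ?_, hl.left g a b⟩
  have := hl.left g⁻¹ _ _ h
  simpa using this

/-- a form which vanishes between different classes is nonnegative if it is nonnegative on each class -/
theorem blk (hl : LOrd lt) (q : G → G → ℂ) (h0 : ∀ k l, lt k l ∨ lt l k → q k l = 0)
    (y : G → ℂ) (h1 : ∀ s : Finset G, (∀ k ∈ s, ∀ l ∈ s, ¬ lt k l) →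
      0 ≤ (∑ k ∈ s, ∑ l ∈ s, conj (y k) * y l * q k l).re) :
    ∀ s : Finset G, 0 ≤ (∑ k ∈ s, ∑ l ∈ s, conj (y k) * y l * q k l).re := by
  classical
  intro s
  induction s using Finset.strongInduction with
  | H s ih =>
    rcases s.eq_empty_or_nonempty with rfl | ⟨a, ha⟩
    · simp
    set s1 := s.filter (fun k => ¬ lt k a ∧ ¬ lt a k) with hs1
    set s2 := s.filter (fun k => ¬ (¬ lt k a ∧ ¬ lt a k)) with hs2
    have hsplit : ∀ f : G → ℂ, ∑ k ∈ s, f k = ∑ k ∈ s1, f k + ∑ k ∈ s2, f k := fun f =>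
      (Finset.sum_filter_add_sum_filter_not s _ f).symm
    have hcmp : ∀ k ∈ s1, ∀ l ∈ s2, lt k l ∨ lt l k := by
      intro k hk l hl'
      rw [hs1, Finset.mem_filter] at hk
      rw [hs2, Finset.mem_filter] at hl'
      have h2 : lt l a ∨ lt a l := by
        by_contra hc
        exact hl'.2 ⟨fun h => hc (Or.inl h), fun h => hc (Or.inr h)⟩
      rcases h2 with h2 | h2
      · rcases hl.neg l k a h2 with h3 | h3
        · exact Or.inr h3
        · exact absurd h3 hk.2.1
      · rcases hl.neg a k l h2 with h3 | h3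
        · exact absurd h3 hk.2.2
        · exact Or.inl h3
    have e1 : ∑ k ∈ s, ∑ l ∈ s, conj (y k) * y l * q k l
        = ∑ k ∈ s1, ∑ l ∈ s1, conj (y k) * y l * q k l
          + ∑ k ∈ s2, ∑ l ∈ s2, conj (y k) * y l * q k l := by
      rw [hsplit]
      congr 1
      · refine Finset.sum_congr rfl fun k hk => ?_
        rw [hsplit]
        rw [Finset.sum_eq_zero (s := s2) fun l hl' => ?_, add_zero]
        rw [h0 k l (hcmp k hk l hl'), mul_zero]
      · refine Finset.sum_congr rfl fun k hk => ?_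
        rw [hsplit]
        rw [Finset.sum_eq_zero (s := s1) fun l hl' => ?_, zero_add]
        rw [h0 k l (hcmp l hl' k hk).symm, mul_zero]
    rw [e1, Complex.add_re]
    have hlt : s2 ⊂ s := by
      refine Finset.filter_ssubset.2 ⟨a, ha, ?_⟩
      rw [not_not]
      exact ⟨hl.irrefl a, hl.irrefl a⟩
    refine add_nonneg (h1 s1 ?_) (ih s2 hlt)
    intro k hk l hl' hkl
    rw [hs1, Finset.mem_filter] at hk hl'
    rcases hl.neg k a l hkl with h | h
    · exact hk.2.1 h
    · exact hl'.2.2 h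

end blk

section hilb
variable {G H : Type} [NormedAddCommGroup H] [InnerProductSpace ℂ H] [CompleteSpace H]

/-- the coordinates of `x` outside `p` vanish -/
def Sp (b : HilbertBasis G ℂ H) (p : G → Prop) (x : H) : Prop := ∀ m, ¬ p m → ⟪b m, x⟫_ℂ = 0

omit [CompleteSpace H] in
theorem Sp.sum {b : HilbertBasis G ℂ H} {p : G → Prop} (s : Finset G) (y : G → ℂ) (x : G → H)
    (h : ∀ k ∈ s, Sp b p (x k)) : Sp b p (∑ k ∈ s, y k • x k) := by
  intro m hm
  rw [inner_sum]
  refine Finset.sum_eq_zero fun k hk => ?_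
  rw [inner_smul_right, h k hk m hm, mul_zero]

omit [CompleteSpace H] in
theorem Sp.add {b : HilbertBasis G ℂ H} {p : G → Prop} {x y : H} (hx : Sp b p x) (hy : Sp b p y) :
    Sp b p (x + y) := by
  intro m hm
  rw [inner_add_right, hx m hm, hy m hm, add_zero]

omit [CompleteSpace H] in
theorem Sp.sub {b : HilbertBasis G ℂ H} {p : G → Prop} {x y : H} (hx : Sp b p x) (hy : Sp b p y) :
    Sp b p (x - y) := by
  intro m hm
  rw [inner_sub_right, hx m hm, hy m hm, sub_zero]

omit [CompleteSpace H] in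
theorem Sp.mono {b : HilbertBasis G ℂ H} {p q : G → Prop} {x : H} (hx : Sp b p x)
    (h : ∀ m, p m → q m) : Sp b q x := fun m hm => hx m fun hp => hm (h m hp)

omit [CompleteSpace H] in
theorem inner_zero {b : HilbertBasis G ℂ H} {p : G → Prop} {x y : H} (hx : Sp b p x)
    (hy : ∀ m, p m → ⟪b m, y⟫_ℂ = 0) : ⟪x, y⟫_ℂ = 0 := by
  rw [← b.tsum_inner_mul_inner]
  have : ∀ m, ⟪x, b m⟫_ℂ * ⟪b m, y⟫_ℂ = 0 := by
    intro m
    by_cases hm : p m
    · rw [hy m hm, mul_zero]
    · rw [← inner_conj_symm, hx m hm, map_zero, zero_mul]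
  simp [this]

theorem Sp.map {b : HilbertBasis G ℂ H} {p q : G → Prop} {x : H} (hx : Sp b p x)
    (X : H →L[ℂ] H) (hX : ∀ m, p m → Sp b q (X (b m))) : Sp b q (X x) := by
  intro m hm
  rw [← ContinuousLinearMap.adjoint_inner_left, ← inner_conj_symm]
  rw [inner_zero hx, map_zero]
  intro k hk
  rw [ContinuousLinearMap.adjoint_inner_right, ← inner_conj_symm, hX k hk m hm, map_zero]

omit [CompleteSpace H] in
theorem basis_inner [DecidableEq G] (b : HilbertBasis G ℂ H) (k l : G) :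
    ⟪b k, b l⟫_ℂ = if k = l then 1 else 0 :=
  orthonormal_iff_ite.1 b.orthonormal k l

omit [CompleteSpace H] in
theorem norm_sum_sq (b : HilbertBasis G ℂ H) (s : Finset G) (y : G → ℂ) :
    ‖∑ k ∈ s, y k • b k‖ ^ 2 = ∑ k ∈ s, ‖y k‖ ^ 2 := by
  classical
  have h := b.orthonormal.inner_sum y y s
  have h0 : ((‖∑ k ∈ s, y k • b k‖ ^ 2 : ℝ) : ℂ) = ⟪∑ k ∈ s, y k • b k, ∑ k ∈ s, y k • b k⟫_ℂ := by
    rw [inner_self_eq_norm_sq_to_K]
    push_cast
    rfl
  have h2 : ((‖∑ k ∈ s, y k • b k‖ ^ 2 : ℝ) : ℂ) = ((∑ k ∈ s, ‖y k‖ ^ 2 : ℝ) : ℂ) := by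
    rw [h0, h]
    push_cast
    refine Finset.sum_congr rfl fun k _ => ?_
    rw [Complex.conj_mul']
  exact_mod_cast h2

theorem re_inner_self_adj {K : H →L[ℂ] H} (hK : IsSelfAdjoint K) (x y : H) :
    (⟪x, K y⟫_ℂ) = conj ⟪y, K x⟫_ℂ := by
  rw [inner_conj_symm, ← ContinuousLinearMap.adjoint_inner_left,
    ← ContinuousLinearMap.star_eq_adjoint, hK.star_eq]

end hilb

section ext
variable {G H : Type} [Group G] [NormedAddCommGroup H] [InnerProductSpace ℂ H] [CompleteSpace H]
  {lt : G → G → Prop}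

/-- `v k` is `b k` plus a vector carried by the larger indices, and `K (v k)` is orthogonal to the basis
vectors with larger indices -/
structure IsExt (lt : G → G → Prop) (b : HilbertBasis G ℂ H) (K : H →L[ℂ] H) (v : G → H) : Prop where
  sp : ∀ k, Sp b (fun m => lt k m) (v k - b k)
  orth : ∀ k m, lt k m → ⟪b m, K (v k)⟫_ℂ = 0

theorem IsExt.orth' (hl : LOrd lt) {b : HilbertBasis G ℂ H} {K : H →L[ℂ] H} {v : G → H}
    (hv : IsExt lt b K v) {k l : G} (h : lt k l) : ⟪v l, K (v k)⟫_ℂ = 0 := by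
  classical
  refine inner_zero (b := b) (p := fun m => m = l ∨ lt l m) ?_ ?_
  · intro m hm
    have h1 := hv.sp l m (fun h' => hm (Or.inr h'))
    rw [inner_sub_right, basis_inner] at h1
    rw [if_neg fun e => hm (Or.inl e), sub_zero] at h1
    exact h1
  · intro m hm
    refine hv.orth k m ?_
    rcases hm with rfl | hm
    · exact h
    · exact hl.trans _ _ _ h hm

theorem class_lt (hl : LOrd lt) {s : Finset G} (hs : ∀ k ∈ s, ∀ l ∈ s, ¬ lt k l) {m : G}
    (hm : ¬ ∀ k ∈ s, lt k m) : ∀ k ∈ s, ¬ lt k m := by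
  intro k hk hkm
  apply hm
  intro k' hk'
  rcases hl.neg k k' m hkm with h | h
  · exact absurd h (hs k hk k' hk')
  · exact h

omit [CompleteSpace H] in
theorem class_sp (hl : LOrd lt) {b : HilbertBasis G ℂ H} {s : Finset G}
    (hs : ∀ k ∈ s, ∀ l ∈ s, ¬ lt k l) (y : G → ℂ) (x : G → H)
    (hx : ∀ k, Sp b (fun m => lt k m) (x k)) : Sp b (fun m => ∀ k ∈ s, lt k m) (∑ k ∈ s, y k • x k) := by
  intro m hm
  rw [inner_sum]
  refine Finset.sum_eq_zero fun k hk => ?_
  rw [inner_smul_right, hx k m (class_lt hl hs hm k hk), mul_zero]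

/-- upper bound -/
theorem ext_bound (hl : LOrd lt) {b : HilbertBasis G ℂ H} {K : H →L[ℂ] H} {v : G → H}
    (hv : IsExt lt b K v) (hK : IsSelfAdjoint K) (hK0 : ∀ x, 0 ≤ (⟪x, K x⟫_ℂ).re) (R : ℝ)
    (hR : ∀ x, (⟪x, K x⟫_ℂ).re ≤ R * ‖x‖ ^ 2) (s : Finset G) (y : G → ℂ) :
    (⟪∑ k ∈ s, y k • v k, K (∑ k ∈ s, y k • v k)⟫_ℂ).re ≤ R * ∑ k ∈ s, ‖y k‖ ^ 2 := by
  classical
  have expand : ∀ s : Finset G, ⟪∑ k ∈ s, y k • v k, K (∑ k ∈ s, y k • v k)⟫_ℂ
      = ∑ k ∈ s, ∑ l ∈ s, conj (y k) * y l * ⟪v k, K (v l)⟫_ℂ := by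
    intro s
    rw [map_sum, sum_inner]
    refine Finset.sum_congr rfl fun k _ => ?_
    rw [inner_sum]
    refine Finset.sum_congr rfl fun l _ => ?_
    rw [map_smul, inner_smul_left, inner_smul_right]
    ring
  have expand2 : ∀ s : Finset G, ∑ k ∈ s, ∑ l ∈ s, conj (y k) * y l *
      ((R : ℂ) * (if k = l then 1 else 0) - ⟪v k, K (v l)⟫_ℂ)
      = ((R * ∑ k ∈ s, ‖y k‖ ^ 2 : ℝ) : ℂ) - ⟪∑ k ∈ s, y k • v k, K (∑ k ∈ s, y k • v k)⟫_ℂ := by
    intro s
    rw [expand]
    simp only [mul_sub, Finset.sum_sub_distrib]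
    congr 1
    push_cast
    rw [Finset.mul_sum]
    refine Finset.sum_congr rfl fun k hk => ?_
    rw [Finset.sum_eq_single k]
    · rw [if_pos rfl, Complex.conj_mul']
      ring
    · intro l _ hlk
      rw [if_neg (Ne.symm hlk)]
      ring
    · intro h
      exact absurd hk h
  have key := blk hl (fun k l => (R : ℂ) * (if k = l then 1 else 0) - ⟪v k, K (v l)⟫_ℂ) (by
    intro k l hkl
    have hne : k ≠ l := by
      rintro rfl
      rcases hkl with h | h <;> exact hl.irrefl _ h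
    simp only [if_neg hne, mul_zero, zero_sub, neg_eq_zero]
    rcases hkl with h | h
    · rw [re_inner_self_adj hK, hv.orth' hl h, map_zero]
    · exact hv.orth' hl h) y (by
    intro s hs
    rw [expand2]
    set w := ∑ k ∈ s, y k • v k with hw
    set e := ∑ k ∈ s, y k • b k with he
    set n := ∑ k ∈ s, y k • (v k - b k) with hn
    have hwen : w = e + n := by
      rw [hw, he, hn, ← Finset.sum_add_distrib]
      refine Finset.sum_congr rfl fun k _ => ?_
      rw [← smul_add]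
      congr 1
      abel
    have hnK : ⟪n, K w⟫_ℂ = 0 := by
      refine inner_zero (class_sp hl hs y _ hv.sp) fun m hm => ?_
      rw [hw, map_sum, inner_sum]
      refine Finset.sum_eq_zero fun k hk => ?_
      rw [map_smul, inner_smul_right, hv.orth k m (hm k hk), mul_zero]
    have hwn : ⟪w, K n⟫_ℂ = 0 := by rw [re_inner_self_adj hK, hnK, map_zero]
    have h3 : ⟪e, K e⟫_ℂ = ⟪w, K w⟫_ℂ + ⟪n, K n⟫_ℂ := by
      have : e = w - n := by rw [hwen]; abel
      rw [this, map_sub, inner_sub_left, inner_sub_right, inner_sub_right, hnK, hwn]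
      ring
    have h4 := hR e
    rw [h3, Complex.add_re, he, norm_sum_sq] at h4
    have h5 := hK0 n
    rw [Complex.sub_re, Complex.ofReal_re]
    linarith) s
  rw [expand2, Complex.sub_re, Complex.ofReal_re] at key
  linarith

/-- lower bound on finite sums -/
theorem low_fin (hl : LOrd lt) {b : HilbertBasis G ℂ H} {S S0 : H →L[ℂ] H} {δ : ℝ} (hδ : 0 < δ)
    {v : G → H} (hv : IsExt lt b (algebraMap ℝ (H →L[ℂ] H) δ + star S * S) v)
    (hS : ∀ k m, ¬ lt k m → ⟪b m, (S - S0) (b k)⟫_ℂ = 0)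
    (hS0 : ∀ k m, lt k m ∨ lt m k → ⟪b m, S0 (b k)⟫_ℂ = 0) (s : Finset G) (y : G → ℂ) :
    δ * ‖∑ k ∈ s, y k • b k‖ ^ 2 + ‖S0 (∑ k ∈ s, y k • b k)‖ ^ 2
      ≤ (⟪∑ k ∈ s, y k • v k, (algebraMap ℝ (H →L[ℂ] H) δ + star S * S) (∑ k ∈ s, y k • v k)⟫_ℂ).re := by
  classical
  set K : H →L[ℂ] H := algebraMap ℝ (H →L[ℂ] H) δ + star S * S with hK
  have hKsa : IsSelfAdjoint K := by
    refine IsSelfAdjoint.add ?_ (IsSelfAdjoint.star_mul_self S)
    exact IsSelfAdjoint.algebraMap _ (IsSelfAdjoint.all δ)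
  have hKx : ∀ x, ⟪x, K x⟫_ℂ = ((δ * ‖x‖ ^ 2 + ‖S x‖ ^ 2 : ℝ) : ℂ) := by
    intro x
    have e1 : K x = (δ : ℂ) • x + ContinuousLinearMap.adjoint S (S x) := by
      rw [hK, _root_.add_apply, Algebra.algebraMap_eq_smul_one]
      rfl
    rw [e1, inner_add_right, inner_smul_right, ContinuousLinearMap.adjoint_inner_right,
      inner_self_eq_norm_sq_to_K, inner_self_eq_norm_sq_to_K]
    push_cast
    rfl
  have expand : ∀ s : Finset G, ⟪∑ k ∈ s, y k • v k, K (∑ k ∈ s, y k • v k)⟫_ℂ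
      = ∑ k ∈ s, ∑ l ∈ s, conj (y k) * y l * ⟪v k, K (v l)⟫_ℂ := by
    intro s
    rw [map_sum, sum_inner]
    refine Finset.sum_congr rfl fun k _ => ?_
    rw [inner_sum]
    refine Finset.sum_congr rfl fun l _ => ?_
    rw [map_smul, inner_smul_left, inner_smul_right]
    ring
  have expand3 : ∀ s : Finset G, ((‖S0 (∑ k ∈ s, y k • b k)‖ ^ 2 : ℝ) : ℂ)
      = ∑ k ∈ s, ∑ l ∈ s, conj (y k) * y l * ⟪S0 (b k), S0 (b l)⟫_ℂ := by
    intro s
    have : ((‖S0 (∑ k ∈ s, y k • b k)‖ ^ 2 : ℝ) : ℂ)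
        = ⟪S0 (∑ k ∈ s, y k • b k), S0 (∑ k ∈ s, y k • b k)⟫_ℂ := by
      rw [inner_self_eq_norm_sq_to_K]
      push_cast
      rfl
    rw [this, map_sum, sum_inner]
    refine Finset.sum_congr rfl fun k _ => ?_
    rw [inner_sum]
    refine Finset.sum_congr rfl fun l _ => ?_
    rw [map_smul, map_smul, inner_smul_left, inner_smul_right]
    ring
  have expand2 : ∀ s : Finset G, ∑ k ∈ s, ∑ l ∈ s, conj (y k) * y l *
      (⟪v k, K (v l)⟫_ℂ - (δ : ℂ) * (if k = l then 1 else 0) - ⟪S0 (b k), S0 (b l)⟫_ℂ)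
      = ⟪∑ k ∈ s, y k • v k, K (∑ k ∈ s, y k • v k)⟫_ℂ - ((δ * ‖∑ k ∈ s, y k • b k‖ ^ 2 : ℝ) : ℂ)
        - ((‖S0 (∑ k ∈ s, y k • b k)‖ ^ 2 : ℝ) : ℂ) := by
    intro s
    rw [expand, expand3, norm_sum_sq]
    simp only [mul_sub, Finset.sum_sub_distrib]
    congr 2
    push_cast
    rw [Finset.mul_sum]
    refine Finset.sum_congr rfl fun k hk => ?_
    rw [Finset.sum_eq_single k]
    · rw [if_pos rfl, Complex.conj_mul']
      ring
    · intro l _ hlk
      rw [if_neg (Ne.symm hlk)]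
      ring
    · intro h
      exact absurd hk h
  have asym : ∀ k l, lt k l → ¬ lt l k := fun k l h h' => hl.irrefl _ (hl.trans _ _ _ h h')
  have hS0sp : ∀ k, Sp b (fun m => ¬ lt k m ∧ ¬ lt m k) (S0 (b k)) := by
    intro k m hm
    refine hS0 k m ?_
    by_contra hc
    exact hm ⟨fun h => hc (Or.inl h), fun h => hc (Or.inr h)⟩
  have key := blk hl
    (fun k l => ⟪v k, K (v l)⟫_ℂ - (δ : ℂ) * (if k = l then 1 else 0) - ⟪S0 (b k), S0 (b l)⟫_ℂ) (by
    intro k l hkl
    have hne : k ≠ l := by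
      rintro rfl
      rcases hkl with h | h <;> exact hl.irrefl _ h
    have e1 : ⟪v k, K (v l)⟫_ℂ = 0 := by
      rcases hkl with h | h
      · rw [re_inner_self_adj hKsa, hv.orth' hl h, map_zero]
      · exact hv.orth' hl h
    have e2 : ⟪S0 (b k), S0 (b l)⟫_ℂ = 0 := by
      refine inner_zero (hS0sp k) fun m hm => hS0sp l m fun hm' => ?_
      rcases hkl with h | h
      · rcases hl.neg k m l h with h' | h'
        · exact hm.1 h'
        · exact hm'.2 h'
      · rcases hl.neg l m k h with h' | h'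
        · exact hm'.1 h'
        · exact hm.2 h'
    simp only [e1, e2, if_neg hne, mul_zero, sub_zero]) y (by
    intro s hs
    rw [expand2]
    set w := ∑ k ∈ s, y k • v k with hw
    set e := ∑ k ∈ s, y k • b k with he
    set n := ∑ k ∈ s, y k • (v k - b k) with hn
    rcases s.eq_empty_or_nonempty with rfl | ⟨a, ha⟩
    · simp [hw, he]
    have hwen : w = e + n := by
      rw [hw, he, hn, ← Finset.sum_add_distrib]
      refine Finset.sum_congr rfl fun k _ => ?_
      rw [← smul_add]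
      congr 1
      abel
    have hnsp : Sp b (fun m => ∀ k ∈ s, lt k m) n := class_sp hl hs y _ hv.sp
    have hen : ⟪e, n⟫_ℂ = 0 := by
      refine inner_zero (b := b) (p := fun m => m ∈ s) ?_ fun m hm => hnsp m fun h => hl.irrefl m (h m hm)
      intro m hm
      rw [he, inner_sum]
      refine Finset.sum_eq_zero fun k hk => ?_
      rw [inner_smul_right, basis_inner, if_neg, mul_zero]
      rintro rfl
      exact hm hk
    set r := (S - S0) e + S n with hr
    have hSw : S w = S0 e + r := by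
      rw [hwen, hr, map_add, _root_.sub_apply]
      abel
    have hrsp : Sp b (fun m => ∀ k ∈ s, lt k m) r := by
      refine Sp.add ?_ ?_
      · have e5 : (S - S0) e = ∑ k ∈ s, y k • (S - S0) (b k) := by
          rw [he, map_sum]
          refine Finset.sum_congr rfl fun k _ => ?_
          rw [map_smul]
        rw [e5]
        exact class_sp hl hs y _ fun k m hm => hS k m hm
      · refine hnsp.map S fun m hm p hp => ?_
        have h6 : ¬ ∀ k ∈ s, lt k p := hp
        have h7 : lt p m := by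
          rcases hl.neg a p m (hm a ha) with h | h
          · exact absurd h (class_lt hl hs h6 a ha)
          · exact h
        have h8 := hS m p (asym _ _ h7)
        have h9 := hS0 m p (Or.inr h7)
        rw [_root_.sub_apply, inner_sub_right, h9, sub_zero] at h8
        exact h8
    have hS0e : Sp b (fun m => ¬ lt a m) (S0 e) := by
      intro m hm
      rw [not_not] at hm
      rw [he, map_sum, inner_sum]
      refine Finset.sum_eq_zero fun k hk => ?_
      rw [map_smul, inner_smul_right, hS0 k m, mul_zero]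
      left
      rcases hl.neg a k m hm with h | h
      · exact absurd h (hs a ha k hk)
      · exact h
    have hr0 : ⟪S0 e, r⟫_ℂ = 0 := inner_zero hS0e fun m hm => hrsp m fun h => hm (h a ha)
    have n1 : ‖w‖ ^ 2 = ‖e‖ ^ 2 + ‖n‖ ^ 2 := by
      rw [hwen]
      have := norm_add_sq_eq_norm_sq_add_norm_sq_of_inner_eq_zero e n hen
      nlinarith
    have n2 : ‖S w‖ ^ 2 = ‖S0 e‖ ^ 2 + ‖r‖ ^ 2 := by
      rw [hSw]
      have := norm_add_sq_eq_norm_sq_add_norm_sq_of_inner_eq_zero (S0 e) r hr0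
      nlinarith
    rw [hKx, Complex.sub_re, Complex.sub_re, Complex.ofReal_re, Complex.ofReal_re, Complex.ofReal_re,
      n1, n2]
    have := sq_nonneg ‖n‖
    have := sq_nonneg ‖r‖
    nlinarith) s
  rw [expand2, Complex.sub_re, Complex.sub_re, Complex.ofReal_re, Complex.ofReal_re] at key
  linarith

end ext

end Pool.Agent.J6H88.JO
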